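import Pool.Agent.R698.BU.Defs

/-!
# BU-P7 (helper310): the local ring and the map to the power series
-/

set_option autoImplicit false

namespace Pool.Agent.R698.BU

open IsLocalRing

namespace Alg

/-- the polynomial ring -/
abbrev PP : Type := MvPolynomial (Fin 6) (ZMod 2)

theorem span_prime (S : Set (Fin 6)) :
    (Ideal.span ((MvPolynomial.X : Fin 6 → PP) '' S)).IsPrime := by
  classical
  set I := Ideal.span ((MvPolynomial.X : Fin 6 → PP) '' S) with hI
  let κ : PP →+* PP := MvPolynomial.eval₂Hom MvPolynomial.C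
    (fun i => if i ∈ S then 0 else MvPolynomial.X i)
  have h1 : (Ideal.Quotient.mk I).comp κ = Ideal.Quotient.mk I := by
    apply MvPolynomial.ringHom_ext
    · intro r
      simp [κ]
    · intro i
      by_cases hi : i ∈ S
      · have h0 : (Ideal.Quotient.mk I) (MvPolynomial.X i) = 0 :=
          Ideal.Quotient.eq_zero_iff_mem.2 (Ideal.subset_span ⟨i, hi, rfl⟩)
        simp [κ, hi, h0]
      · simp [κ, hi]
  have h2 : I = RingHom.ker κ := by
    apply le_antisymm
    · rw [hI, Ideal.span_le]
      rintro _ ⟨i, hi, rfl⟩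
      show κ (MvPolynomial.X i) = 0
      simp [κ, hi]
    · intro p hp
      have h3 : (Ideal.Quotient.mk I) (κ p) = Ideal.Quotient.mk I p := by
        rw [← RingHom.comp_apply, h1]
      rw [show κ p = 0 from hp, map_zero] at h3
      exact Ideal.Quotient.eq_zero_iff_mem.1 h3.symm
  rw [h2]
  exact RingHom.ker_isPrime κ

/-- the maximal ideal at the origin -/
noncomputable def P : Ideal PP := RingHom.ker (MvPolynomial.constantCoeff : PP →+* ZMod 2)

instance : P.IsPrime := RingHom.ker_isPrime _

theorem mem_P (p : PP) : p ∈ P ↔ MvPolynomial.constantCoeff p = 0 := Iff.rfl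

theorem P_eq : P = Ideal.span (Set.range (MvPolynomial.X : Fin 6 → PP)) := by
  apply le_antisymm
  · intro p hp
    rw [mem_P] at hp
    rw [← Set.image_univ, MvPolynomial.mem_ideal_span_X_image]
    intro m hm
    by_contra hcon
    push Not at hcon
    have hm0 : m = 0 := by
      ext i
      exact hcon i (Set.mem_univ i)
    rw [hm0, MvPolynomial.mem_support_iff] at hm
    exact hm hp
  · rw [Ideal.span_le]
    rintro _ ⟨i, rfl⟩
    show MvPolynomial.constantCoeff (MvPolynomial.X i) = 0
    simp

theorem span_le_P (S : Set (Fin 6)) :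
    Ideal.span ((MvPolynomial.X : Fin 6 → PP) '' S) ≤ P := by
  rw [P_eq]
  exact Ideal.span_mono (Set.image_subset_range _ _)

theorem X_notMem (S : Set (Fin 6)) (j : Fin 6) (hj : j ∉ S) :
    (MvPolynomial.X j : PP) ∉ Ideal.span ((MvPolynomial.X : Fin 6 → PP) '' S) := by
  intro h
  rw [MvPolynomial.mem_ideal_span_X_image] at h
  obtain ⟨i, hi, hne⟩ := h (Finsupp.single j 1) (by simp [MvPolynomial.support_X])
  rw [Finsupp.single_apply] at hne
  by_cases hij : j = i
  · exact hj (hij ▸ hi)
  · rw [if_neg hij] at hne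
    exact hne rfl

/-- the local ring -/
abbrev AA : Type := Localization.AtPrime P

/-- generators -/
noncomputable def vv (j : Fin 6) : AA := algebraMap PP AA (MvPolynomial.X j)

theorem span_vv (S : Set (Fin 6)) : Ideal.span (vv '' S)
    = Ideal.map (algebraMap PP AA) (Ideal.span ((MvPolynomial.X : Fin 6 → PP) '' S)) := by
  rw [Ideal.map_span, Set.image_image]
  rfl

theorem max_eq : maximalIdeal AA = Ideal.map (algebraMap PP AA) P :=
  (Localization.AtPrime.map_eq_maximalIdeal (I := P)).symm

theorem mem_map (I : Ideal PP) (p : PP) (s : P.primeCompl) :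
    IsLocalization.mk' AA p s ∈ Ideal.map (algebraMap PP AA) I ↔
      ∃ t ∈ P.primeCompl, t * p ∈ I :=
  IsLocalization.mk'_mem_map_algebraMap_iff P.primeCompl AA I p s

/-- images of the variables -/
noncomputable def w : Fin 6 → LL :=
  Fin.append (m := 3) (n := 3) (fun i => cc (sv i) * T2) (fun i => cc (sv i) * T1)

/-- coefficient map -/
noncomputable def cf : ZMod 2 →+* FF :=
  (algebraMap (MvPolynomial (Fin 2) (ZMod 2)) FF).comp MvPolynomial.C

/-- the map of the polynomial ring -/
noncomputable def ψ : PP →+* LL :=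
  MvPolynomial.eval₂Hom (PowerSeries.C.comp (PowerSeries.C.comp cf)) w

theorem ψ_X (i : Fin 6) : ψ (MvPolynomial.X i) = w i := by
  simp [ψ]

theorem w_cc (i : Fin 6) : PowerSeries.constantCoeff (PowerSeries.constantCoeff (w i)) = 0 := by
  have h : ∀ i : Fin (3 + 3), PowerSeries.constantCoeff (PowerSeries.constantCoeff
      (Fin.append (fun i => cc (sv i) * T2) (fun i => cc (sv i) * T1) i)) = 0 := by
    intro i
    refine Fin.addCases (fun i => ?_) (fun i => ?_) i
    · rw [Fin.append_left]
      simp [T2]
    · rw [Fin.append_right]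
      simp [T1]
  exact h i

theorem ψ_cc (p : PP) : PowerSeries.constantCoeff (PowerSeries.constantCoeff (ψ p))
    = cf (MvPolynomial.constantCoeff p) := by
  have h : (PowerSeries.constantCoeff.comp (PowerSeries.constantCoeff.comp ψ) : PP →+* FF)
      = cf.comp MvPolynomial.constantCoeff := by
    apply MvPolynomial.ringHom_ext
    · intro r
      simp [ψ]
    · intro i
      rw [RingHom.comp_apply, RingHom.comp_apply, ψ_X, w_cc, RingHom.comp_apply,
        MvPolynomial.constantCoeff_X, map_zero]
  exact congrArg (fun f : PP →+* FF => f p) h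

theorem z2 (x : ZMod 2) (hx : x ≠ 0) : x = 1 := by
  revert x
  decide

theorem ψ_unit (s : P.primeCompl) : IsUnit (ψ s) := by
  rw [PowerSeries.isUnit_iff_constantCoeff, PowerSeries.isUnit_iff_constantCoeff, ψ_cc]
  have h1 : MvPolynomial.constantCoeff (s : PP) ≠ 0 := fun h => s.2 ((mem_P _).2 h)
  rw [z2 _ h1, map_one]
  exact isUnit_one

/-- the map of the local ring -/
noncomputable def φ : AA →+* LL := IsLocalization.lift (M := P.primeCompl) ψ_unit

theorem φ_vv (i : Fin 6) : φ (vv i) = w i := by
  unfold φ vv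
  rw [IsLocalization.lift_eq, ψ_X]

end Alg

open Alg in
/-- P7 (file Alg.lean) -/
theorem exists_A : ∃ (A : Type) (_ : CommRing A) (_ : IsNoetherianRing A) (_ : IsLocalRing A)
    (v : Fin 6 → A) (φ : A →+* LL), (2 : A) = 0 ∧
    maximalIdeal A = Ideal.span (Set.range v) ∧
    (∀ (j : Fin 6) (a : A), v j * a ∈ Ideal.span (v '' {l | l < j}) →
      a ∈ Ideal.span (v '' {l | l < j})) ∧
    (∀ a : A, a ∈ maximalIdeal A ∨ a - 1 ∈ maximalIdeal A) ∧
    (∀ i : Fin 3, φ (v (Fin.castAdd 3 i)) = cc (sv i) * T2 ∧
      φ (v (Fin.natAdd 3 i)) = cc (sv i) * T1) := by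
  have hN : IsNoetherianRing AA := IsLocalization.isNoetherianRing P.primeCompl AA inferInstance
  refine ⟨AA, inferInstance, hN, inferInstance, vv, φ, ?_, ?_, ?_, ?_, ?_⟩
  · have h2 : (2 : ZMod 2) = 0 := by decide
    have h3 : (2 : AA) = algebraMap PP AA (MvPolynomial.C (2 : ZMod 2)) := by
      rw [map_ofNat, map_ofNat]
    rw [h3, h2, map_zero, map_zero]
  · rw [max_eq, ← Set.image_univ, span_vv, Set.image_univ]
    exact congrArg (Ideal.map (algebraMap PP AA)) P_eq
  · intro j a ha
    rw [span_vv] at ha ⊢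
    obtain ⟨p, s, rfl⟩ := IsLocalization.exists_mk'_eq P.primeCompl a
    have e : vv j * IsLocalization.mk' AA p s = IsLocalization.mk' AA (MvPolynomial.X j * p) s := by
      unfold vv
      rw [IsLocalization.mul_mk'_eq_mk'_of_mul]
    rw [e, mem_map] at ha
    obtain ⟨t, ht, hmem⟩ := ha
    have hp := span_prime {l : Fin 6 | l < j}
    rw [mem_map]
    refine ⟨1, Submonoid.one_mem _, ?_⟩
    rw [one_mul]
    rcases hp.mem_or_mem hmem with h | h
    · exact absurd (span_le_P _ h) ht
    · rcases hp.mem_or_mem h with h' | h'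
      · exact absurd h' (X_notMem _ j (by simp))
      · exact h'
  · intro a
    obtain ⟨p, s, rfl⟩ := IsLocalization.exists_mk'_eq P.primeCompl a
    by_cases hp : p ∈ P
    · left
      rw [max_eq, mem_map]
      exact ⟨1, Submonoid.one_mem _, by rwa [one_mul]⟩
    · right
      have h1 : (IsLocalization.mk' AA p s - 1) * algebraMap PP AA (s : PP)
          = algebraMap PP AA (p - s) := by
        rw [sub_mul, one_mul, IsLocalization.mk'_spec, map_sub]
      have h2 : p - (s : PP) ∈ P := by
        rw [mem_P, map_sub, z2 _ (fun h => hp ((mem_P _).2 h)),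
          z2 _ (fun h => s.2 ((mem_P _).2 h)), sub_self]
      have h3 : (IsLocalization.mk' AA p s - 1) * algebraMap PP AA (s : PP) ∈ maximalIdeal AA := by
        rw [h1, max_eq]
        exact Ideal.mem_map_of_mem _ h2
      rcases (maximalIdeal.isMaximal AA).isPrime.mem_or_mem h3 with h | h
      · exact h
      · exfalso
        have hu : IsUnit (algebraMap PP AA (s : PP)) := IsLocalization.map_units AA s
        exact (mem_maximalIdeal _).1 h hu
  · intro i
    constructor
    · rw [φ_vv]
      exact Fin.append_left (m := 3) (n := 3) _ _ i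
    · rw [φ_vv]
      exact Fin.append_right (m := 3) (n := 3) _ _ i

end Pool.Agent.R698.BU
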