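import Pool.Agent.R698.BU.Defs

set_option autoImplicit false

namespace Pool.Agent.R698.BU

open IsLocalRing

/-- P11 (file Burch.lean) -/
theorem isBurch_mul {R : Type} [CommRing R] [IsLocalRing R] [IsNoetherianRing R] (c : Ideal R)
    (hc : maximalIdeal R * c ≠ ⊥) : IsBurch (maximalIdeal R * c) := by
  intro h
  apply hc
  have hle : c ≤ (maximalIdeal R * c).colon (maximalIdeal R : Set R) := by
    intro x hx
    rw [Submodule.mem_colon]
    intro s hs
    rw [smul_eq_mul, mul_comm x s]
    exact Ideal.mul_mem_mul hs hx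
  have h1 : maximalIdeal R * c ≤ maximalIdeal R * (maximalIdeal R * c) := by
    rw [← h]
    exact Ideal.mul_mono_right hle
  apply Submodule.eq_bot_of_le_smul_of_le_jacobson_bot (maximalIdeal R) (maximalIdeal R * c)
    (IsNoetherian.noetherian _) h1
  exact (IsLocalRing.jacobson_eq_maximalIdeal _ bot_ne_top).ge

end Pool.Agent.R698.BU
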