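import Mathlib

set_option autoImplicit false

open CategoryTheory

/-! Definitions for the project `BU` (MP_b9b9f8_al). -/

namespace Pool.Agent.R698.BU

/-- minimal number of generators, in `ℕ∞` -/
noncomputable def mu (R : Type) [CommRing R] (X : Type) [AddCommGroup X] [Module R X] : ℕ∞ :=
  ⨅ (s : Finset X) (_ : Submodule.span R (s : Set X) = ⊤), (s.card : ℕ∞)

/-- Mathlib's `Tor_n^R(M, N)` -/
noncomputable abbrev TorM (R : Type) [CommRing R] (n : ℕ) (M N : Type) [AddCommGroup M]
    [Module R M] [AddCommGroup N] [Module R N] : ModuleCat.{0} R :=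
  ((Tor (ModuleCat.{0} R) n).obj (ModuleCat.of R M)).obj (ModuleCat.of R N)

/-- `f n ≤ a * n ^ (d - 1)` for all large `n` (multiplied through by `n`, so that `d = 0` makes
sense) -/
def GrowthLe (f : ℕ → ℕ∞) (d : ℕ) : Prop :=
  ∃ a : ℕ, ∀ᶠ n : ℕ in Filter.atTop, f n * (n : ℕ∞) ≤ (a : ℕ∞) * (n : ℕ∞) ^ d

/-- the complexity of a sequence -/
noncomputable def cplx (f : ℕ → ℕ∞) : ℕ∞ := ⨅ (d : ℕ) (_ : GrowthLe f d), (d : ℕ∞)

/-- Tor complexity -/
noncomputable def tcx (R : Type) [CommRing R] (M N : Type) [AddCommGroup M]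
    [Module R M] [AddCommGroup N] [Module R N] : ℕ∞ :=
  cplx (fun n => mu R (TorM R n M N))

/-- Burch ideals of a local ring: `𝔪 (I : 𝔪) ≠ 𝔪 I` -/
def IsBurch {R : Type} [CommRing R] [IsLocalRing R] (I : Ideal R) : Prop :=
  IsLocalRing.maximalIdeal R * (I.colon (IsLocalRing.maximalIdeal R : Set R)) ≠
    IsLocalRing.maximalIdeal R * I

/-- action of a matrix-like map on a module -/
noncomputable def extN {R : Type} [CommRing R] {a b : ℕ} (D : (Fin a → R) →ₗ[R] (Fin b → R))
    (N : Type) [AddCommGroup N] [Module R N] : (Fin a → N) →ₗ[R] (Fin b → N) where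
  toFun v := fun i => ∑ j, D (Pi.single j 1) i • v j
  map_add' v w := by
    funext i
    simp [smul_add, Finset.sum_add_distrib]
  map_smul' r v := by
    funext i
    simp only [Pi.smul_apply, RingHom.id_apply, Finset.smul_sum]
    exact Finset.sum_congr rfl fun j _ => smul_comm _ _ _

/-- the bidiagonal maps -/
def DD {R : Type} [CommRing R] (X Y : R) (N : Type) [AddCommGroup N] [Module R N] (n : ℕ) :
    (Fin (n + 2) → N) →ₗ[R] (Fin (n + 1) → N) where
  toFun v := fun i => X • v i.succ + Y • v i.castSucc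
  map_add' v w := by
    funext i
    simp only [Pi.add_apply, smul_add]
    abel
  map_smul' r v := by
    funext i
    simp only [Pi.smul_apply, RingHom.id_apply, smul_add]
    rw [smul_comm X r, smul_comm Y r]

/-- `A[X,Y]/(X²,Y²)` -/
abbrev RR (A : Type) [CommRing A] : Type := DualNumber (DualNumber A)

/-- the element `X` -/
def eX (A : Type) [CommRing A] : RR A := TrivSqZeroExt.inl DualNumber.eps

/-- the element `Y` -/
def eY (A : Type) [CommRing A] : RR A := DualNumber.eps

/-- embedding of `A` -/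
def ofA (A : Type) [CommRing A] (a : A) : RR A := TrivSqZeroExt.inl (TrivSqZeroExt.inl a)

/-- the ideal `(X, Y)` -/
def IA (A : Type) [CommRing A] : Ideal (RR A) := Ideal.span {eX A, eY A}

/-- `M` has a free resolution with ranks `h` -/
def HasRes (R : Type) [CommRing R] (M : Type) [AddCommGroup M] [Module R M] (h : ℕ → ℕ) : Prop :=
  ∃ (D : ∀ i : ℕ, (Fin (h (i + 1)) → R) →ₗ[R] (Fin (h i) → R)) (π : (Fin (h 0) → R) →ₗ[R] M),
    (∀ i, LinearMap.range (D (i + 1)) = LinearMap.ker (D i)) ∧ Function.Surjective π ∧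
      LinearMap.range (D 0) = LinearMap.ker π

/-- the field `F = 𝔽₂(s₁, s₂)` -/
abbrev FF : Type := FractionRing (MvPolynomial (Fin 2) (ZMod 2))

/-- `1, s₁, s₂` -/
noncomputable def sv : Fin 3 → FF :=
  ![1, algebraMap (MvPolynomial (Fin 2) (ZMod 2)) FF (MvPolynomial.X 0),
    algebraMap (MvPolynomial (Fin 2) (ZMod 2)) FF (MvPolynomial.X 1)]

/-- `F[[t₁]][[t₂]]` -/
abbrev LL : Type := PowerSeries (PowerSeries FF)

/-- `t₂` -/
noncomputable def T2 : LL := PowerSeries.X

/-- `t₁` -/
noncomputable def T1 : LL := PowerSeries.C (PowerSeries.X)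

/-- scalars -/
noncomputable def cc (c : FF) : LL := PowerSeries.C (PowerSeries.C c)

/-- set `t₁ = 0` -/
noncomputable def ev : LL →+* PowerSeries FF := PowerSeries.map PowerSeries.constantCoeff

/-- the ideal `{uX + vY + wXY : t₂ φ(u) = t₁ φ(v)}` -/
def JJ {A : Type} [CommRing A] (φ : A →+* LL) : Ideal (RR A) where
  carrier := {r | r.fst.fst = 0 ∧ T2 * φ r.fst.snd = T1 * φ r.snd.fst}
  add_mem' := by
    rintro r s ⟨h1, h2⟩ ⟨h3, h4⟩
    refine ⟨by simp [h1, h3], ?_⟩
    simp only [TrivSqZeroExt.fst_add, TrivSqZeroExt.snd_add, map_add, mul_add, h2, h4]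
  zero_mem' := by
    refine ⟨rfl, ?_⟩
    simp
  smul_mem' := by
    rintro c r ⟨h1, h2⟩
    refine ⟨by simp [h1], ?_⟩
    simp only [smul_eq_mul, TrivSqZeroExt.fst_mul, TrivSqZeroExt.snd_mul, h1, map_add, map_mul,
      TrivSqZeroExt.fst_add, TrivSqZeroExt.snd_add, TrivSqZeroExt.fst_smul,
      MulOpposite.smul_eq_mul_unop, MulOpposite.unop_op, map_zero,
      mul_zero, zero_mul, add_zero, zero_add]
    linear_combination (φ c.fst.fst) * h2

end Pool.Agent.R698.BU
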