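import Mathlib
import Pool.Agent.R698.BU.Defs

set_option autoImplicit false

namespace Pool.Agent.R698.BU

open IsLocalRing

theorem cnt_ord {A : Type} [CommRing A] [IsLocalRing A] (ρ : A →+* PowerSeries FF)
    (hρ : ∀ a ∈ maximalIdeal A, PowerSeries.coeff 0 (ρ a) = 0) (a : A)
    (ha : a ∈ maximalIdeal A ^ 3) : (PowerSeries.X : PowerSeries FF) ^ 3 ∣ ρ a := by
  have h1 : (maximalIdeal A).map ρ ≤ Ideal.span {(PowerSeries.X : PowerSeries FF)} := by
    rw [Ideal.map_le_iff_le_comap]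
    intro x hx
    rw [Ideal.mem_comap, Ideal.mem_span_singleton, PowerSeries.X_dvd_iff]
    simpa using hρ x hx
  have h2 : ρ a ∈ Ideal.span {(PowerSeries.X : PowerSeries FF)} ^ 3 := by
    have := Ideal.mem_map_of_mem ρ ha
    rw [Ideal.map_pow] at this
    exact Ideal.pow_right_mono h1 3 this
  rwa [Ideal.span_singleton_pow, Ideal.mem_span_singleton] at h2

theorem cnt_li (K : ℕ) : LinearIndependent (ZMod 2)
    (fun p : Fin K × Fin K => (sv 1 ^ (p.1 : ℕ) * sv 2 ^ (p.2 : ℕ) : FF)) := by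
  have h1 := (MvPolynomial.basisMonomials (Fin 2) (ZMod 2)).linearIndependent
  have hinj : Function.Injective (fun p : Fin K × Fin K =>
      (Finsupp.single (0 : Fin 2) (p.1 : ℕ) + Finsupp.single (1 : Fin 2) (p.2 : ℕ) :
        Fin 2 →₀ ℕ)) := by
    intro p q h
    have h0 := DFunLike.congr_fun h (0 : Fin 2)
    have h1 := DFunLike.congr_fun h (1 : Fin 2)
    simp at h0 h1
    exact Prod.ext (Fin.ext h0) (Fin.ext h1)
  have h2 := h1.comp _ hinj
  have h3 := h2.map' (IsScalarTower.toAlgHom (ZMod 2) (MvPolynomial (Fin 2) (ZMod 2)) FF).toLinearMap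
    (by
      rw [LinearMap.ker_eq_bot]
      exact IsFractionRing.injective (MvPolynomial (Fin 2) (ZMod 2)) FF)
  suffices hfun : (fun p : Fin K × Fin K => (sv 1 ^ (p.1 : ℕ) * sv 2 ^ (p.2 : ℕ) : FF)) =
      (⇑(IsScalarTower.toAlgHom (ZMod 2) (MvPolynomial (Fin 2) (ZMod 2)) FF).toLinearMap ∘
        ⇑(MvPolynomial.basisMonomials (Fin 2) (ZMod 2)) ∘ fun p : Fin K × Fin K =>
          (Finsupp.single (0 : Fin 2) (p.1 : ℕ) + Finsupp.single (1 : Fin 2) (p.2 : ℕ) :
        Fin 2 →₀ ℕ)) by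
    rw [hfun]
    exact h3
  funext p
  simp only [Function.comp_apply, MvPolynomial.coe_basisMonomials, AlgHom.toLinearMap_apply,
    IsScalarTower.coe_toAlgHom']
  have : (MvPolynomial.monomial (Finsupp.single (0 : Fin 2) (p.1 : ℕ) +
      Finsupp.single (1 : Fin 2) (p.2 : ℕ)) (1 : ZMod 2)) =
      MvPolynomial.X 0 ^ (p.1 : ℕ) * MvPolynomial.X 1 ^ (p.2 : ℕ) := by
    rw [MvPolynomial.X_pow_eq_monomial, MvPolynomial.X_pow_eq_monomial,
      MvPolynomial.monomial_mul, one_mul]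
  rw [this, map_mul, map_pow, map_pow]
  simp [sv]

/-- P10 (file Cnt.lean) -/
theorem count (A : Type) [CommRing A] [IsLocalRing A] (ρ : A →+* PowerSeries FF)
    (hρ : ∀ a ∈ maximalIdeal A, PowerSeries.coeff 0 (ρ a) = 0)
    (L : ℕ) (b : Fin L → A) (hb : ∀ a : A, ∃ S : Finset (Fin L),
      a - ∑ i ∈ S, b i ∈ maximalIdeal A ^ 3)
    (N u : ℕ) (g : Fin u → PowerSeries FF)
    (hg : ∀ i, ∀ j < N, PowerSeries.coeff j (g i) = 0)
    (hU : ∀ c d : ℕ, c + d ≤ N → ∃ r : Fin u → A, ∑ i, ρ (r i) * g i =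
      PowerSeries.C (sv 1 ^ c * sv 2 ^ d) * PowerSeries.X ^ (N + 2)) :
    (N / 2 + 1) ^ 2 ≤ L * u := by
  classical
  let e : Fin u × Fin L → FF := fun p => PowerSeries.coeff (N + 2) (ρ (b p.2) * g p.1)
  have hgX : ∀ i, (PowerSeries.X : PowerSeries FF) ^ N ∣ g i := fun i =>
    PowerSeries.X_pow_dvd_iff.2 (hg i)
  have hmem : ∀ p : Fin (N / 2 + 1) × Fin (N / 2 + 1),
      (sv 1 ^ (p.1 : ℕ) * sv 2 ^ (p.2 : ℕ) : FF) ∈ Submodule.span (ZMod 2) (Set.range e) := by
    intro p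
    have hp1 := p.1.2
    have hp2 := p.2.2
    obtain ⟨r, hr⟩ := hU p.1 p.2 (by omega)
    choose S hS using fun i => hb (r i)
    have hz : ∀ i, PowerSeries.coeff (N + 2) (ρ (r i) * g i) = ∑ l ∈ S i, e (i, l) := by
      intro i
      have h1 : ρ (r i) * g i = ρ (r i - ∑ l ∈ S i, b l) * g i + ∑ l ∈ S i, ρ (b l) * g i := by
        rw [map_sub, map_sum, ← Finset.sum_mul]
        ring
      have h2 : (PowerSeries.X : PowerSeries FF) ^ (3 + N) ∣ ρ (r i - ∑ l ∈ S i, b l) * g i := by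
        rw [pow_add]
        exact mul_dvd_mul (cnt_ord ρ hρ _ (hS i)) (hgX i)
      have h3 := (PowerSeries.X_pow_dvd_iff.1 h2) (N + 2) (by omega)
      rw [h1, map_add, h3, zero_add, map_sum]
    have hc := congrArg (PowerSeries.coeff (N + 2)) hr
    rw [map_sum, PowerSeries.coeff_C_mul, PowerSeries.coeff_X_pow_self, mul_one] at hc
    rw [← hc]
    refine Submodule.sum_mem _ fun i _ => ?_
    rw [hz i]
    exact Submodule.sum_mem _ fun l _ => Submodule.subset_span ⟨(i, l), rfl⟩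
  have hli := cnt_li (N / 2 + 1)
  have h := linearIndependent_le_span' _ hli (Set.range e) (by
    rintro x ⟨p, rfl⟩
    exact hmem p)
  have h2 : Fintype.card (Set.range e) ≤ Fintype.card (Fin u × Fin L) :=
    Fintype.card_range_le e
  rw [Cardinal.mk_fintype] at h
  have h3 : Fintype.card (Fin (N / 2 + 1) × Fin (N / 2 + 1)) ≤ Fintype.card (Set.range e) := by
    exact_mod_cast h
  simp only [Fintype.card_prod, Fintype.card_fin] at h2 h3
  rw [sq, mul_comm L u]
  exact h3.trans h2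

end Pool.Agent.R698.BU
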