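import Mathlib
import Pool.Agent.R698.BU.Defs

set_option autoImplicit false

open CategoryTheory

namespace Pool.Agent.R698.BU

/-- transport of a resolution along linear equivalences -/
theorem HasRes.of_equiv {R : Type} [CommRing R] {M : Type} [AddCommGroup M] [Module R M]
    (C : ℕ → Type) [∀ n, AddCommGroup (C n)] [∀ n, Module R (C n)] (g : ℕ → ℕ)
    (e : ∀ n, C n ≃ₗ[R] (Fin (g n) → R)) (D : ∀ n, C (n + 1) →ₗ[R] C n) (π : C 0 →ₗ[R] M)
    (hD : ∀ i, LinearMap.range (D (i + 1)) = LinearMap.ker (D i))
    (hπ : Function.Surjective π) (h0 : LinearMap.range (D 0) = LinearMap.ker π) :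
    HasRes R M g := by
  refine ⟨fun n => (e n).toLinearMap ∘ₗ D n ∘ₗ (e (n + 1)).symm.toLinearMap,
    π ∘ₗ (e 0).symm.toLinearMap, ?_, ?_, ?_⟩
  · intro i
    ext v
    simp only [LinearMap.mem_range, LinearMap.mem_ker, LinearMap.comp_apply,
      LinearEquiv.coe_coe]
    constructor
    · rintro ⟨w, rfl⟩
      have : D (i + 1) ((e (i + 1 + 1)).symm w) ∈ LinearMap.ker (D i) := by
        rw [← hD i]
        exact ⟨_, rfl⟩
      rw [LinearEquiv.symm_apply_apply, LinearMap.mem_ker.1 this, map_zero]
    · intro hv
      have h1 : D i ((e (i + 1)).symm v) = 0 := by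
        simpa using hv
      have h2 : (e (i + 1)).symm v ∈ LinearMap.range (D (i + 1)) := by
        rw [hD i]
        exact h1
      obtain ⟨w, hw⟩ := h2
      refine ⟨e (i + 1 + 1) w, ?_⟩
      rw [LinearEquiv.symm_apply_apply, hw, LinearEquiv.apply_symm_apply]
  · intro m
    obtain ⟨c, hc⟩ := hπ m
    refine ⟨e 0 c, ?_⟩
    simp [hc]
  · ext v
    simp only [LinearMap.mem_range, LinearMap.mem_ker, LinearMap.comp_apply,
      LinearEquiv.coe_coe]
    constructor
    · rintro ⟨w, rfl⟩
      have : D 0 ((e (0 + 1)).symm w) ∈ LinearMap.ker π := by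
        rw [← h0]
        exact ⟨_, rfl⟩
      rw [LinearEquiv.symm_apply_apply, LinearMap.mem_ker.1 this]
    · intro hv
      have h2 : (e 0).symm v ∈ LinearMap.range (D 0) := by
        rw [h0]
        exact hv
      obtain ⟨w, hw⟩ := h2
      refine ⟨e (0 + 1) w, ?_⟩
      rw [LinearEquiv.symm_apply_apply, hw, LinearEquiv.apply_symm_apply]

/-- shifted ranks -/
def kk (h : ℕ → ℕ) : ℕ → ℕ
  | 0 => 0
  | n + 1 => h n

/-- the modules of the cone -/
abbrev CC (R : Type) (h : ℕ → ℕ) (n : ℕ) : Type := (Fin (h n) → R) × (Fin (kk h n) → R)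

/-- the differentials of the cone -/
def DC {R : Type} [CommRing R] (h : ℕ → ℕ)
    (D : ∀ i : ℕ, (Fin (h (i + 1)) → R) →ₗ[R] (Fin (h i) → R)) (x : R) :
    ∀ n, CC R h (n + 1) →ₗ[R] CC R h n
  | 0 =>
    { toFun := fun p => (D 0 p.1 + x • (show Fin (h 0) → R from p.2), 0)
      map_add' := by
        intro p q
        refine Prod.ext ?_ (by simp)
        show D 0 (p.1 + q.1) + x • ((show Fin (h 0) → R from p.2) + (show Fin (h 0) → R from q.2))
          = (D 0 p.1 + x • (show Fin (h 0) → R from p.2)) +
            (D 0 q.1 + x • (show Fin (h 0) → R from q.2))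
        rw [map_add, smul_add]
        abel
      map_smul' := by
        intro r p
        refine Prod.ext ?_ (by simp)
        show D 0 (r • p.1) + x • (r • (show Fin (h 0) → R from p.2))
          = r • (D 0 p.1 + x • (show Fin (h 0) → R from p.2))
        rw [map_smul, smul_add, smul_comm x r] }
  | n + 1 =>
    { toFun := fun p => (D (n + 1) p.1 + x • (show Fin (h (n + 1)) → R from p.2),
        (show Fin (h n) → R from - D n (show Fin (h (n + 1)) → R from p.2)))
      map_add' := by
        intro p q
        refine Prod.ext ?_ ?_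
        · show D (n + 1) (p.1 + q.1) + x • ((show Fin (h (n + 1)) → R from p.2) +
            (show Fin (h (n + 1)) → R from q.2))
            = (D (n + 1) p.1 + x • (show Fin (h (n + 1)) → R from p.2)) +
              (D (n + 1) q.1 + x • (show Fin (h (n + 1)) → R from q.2))
          rw [map_add, smul_add]
          abel
        · show - D n ((show Fin (h (n + 1)) → R from p.2) + (show Fin (h (n + 1)) → R from q.2))
            = - D n (show Fin (h (n + 1)) → R from p.2) +
              - D n (show Fin (h (n + 1)) → R from q.2)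
          rw [map_add]
          abel
      map_smul' := by
        intro r p
        refine Prod.ext ?_ ?_
        · show D (n + 1) (r • p.1) + x • (r • (show Fin (h (n + 1)) → R from p.2))
            = r • (D (n + 1) p.1 + x • (show Fin (h (n + 1)) → R from p.2))
          rw [map_smul, smul_add, smul_comm x r]
        · show - D n (r • (show Fin (h (n + 1)) → R from p.2))
            = r • (- D n (show Fin (h (n + 1)) → R from p.2))
          rw [map_smul, smul_neg] }

/-- P5 (file Cone.lean) -/
theorem HasRes.cone {R : Type} [CommRing R] {I : Ideal R} {h : ℕ → ℕ} (H : HasRes R (R ⧸ I) h)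
    (x : R) (hx : ∀ a, x * a ∈ I → a ∈ I) :
    HasRes R (R ⧸ (I ⊔ Ideal.span {x})) (fun n => h n + (if n = 0 then 0 else h (n - 1))) := by
  obtain ⟨D, π, hD, hπ, h0⟩ := H
  have key : HasRes R (R ⧸ (I ⊔ Ideal.span {x})) (fun n => h n + kk h n) := by
    have hxM : ∀ m : R ⧸ I, x • m = 0 → m = 0 := by
      intro m hm
      obtain ⟨a, rfl⟩ := Ideal.Quotient.mk_surjective m
      have h1 : Ideal.Quotient.mk I (x * a) = 0 := hm
      exact Ideal.Quotient.eq_zero_iff_mem.2 (hx a (Ideal.Quotient.eq_zero_iff_mem.1 h1))
    have e0 : ∀ {c}, π (D 0 c) = 0 := fun {c} => by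
      have : D 0 c ∈ LinearMap.ker π := by
        rw [← h0]
        exact ⟨_, rfl⟩
      exact this
    have e1 : ∀ {i c}, D i (D (i + 1) c) = 0 := fun {i c} => by
      have : D (i + 1) c ∈ LinearMap.ker (D i) := by
        rw [← hD i]
        exact ⟨_, rfl⟩
      exact this
    have f0 : ∀ b, π b = 0 → ∃ c, D 0 c = b := fun b hb => by
      have : b ∈ LinearMap.range (D 0) := by
        rw [h0]
        exact hb
      exact this
    have f1 : ∀ i b, D i b = 0 → ∃ c, D (i + 1) c = b := fun i b hb => by
      have : b ∈ LinearMap.range (D (i + 1)) := by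
        rw [hD i]
        exact hb
      exact this
    -- the augmentation
    let q : (R ⧸ I) →ₗ[R] (R ⧸ (I ⊔ Ideal.span {x})) :=
      Submodule.mapQ I (I ⊔ Ideal.span {x}) LinearMap.id le_sup_left
    have hq : ∀ a : R, q (Ideal.Quotient.mk I a) = Ideal.Quotient.mk (I ⊔ Ideal.span {x}) a :=
      fun a => rfl
    have hqker : ∀ m : R ⧸ I, q m = 0 → ∃ m', m = x • m' := by
      intro m hm
      obtain ⟨a, rfl⟩ := Ideal.Quotient.mk_surjective m
      rw [hq] at hm
      have h1 := Ideal.Quotient.eq_zero_iff_mem.1 hm
      obtain ⟨i, hi, j, hj, hij⟩ := Submodule.mem_sup.1 h1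
      obtain ⟨t, rfl⟩ := Ideal.mem_span_singleton'.1 hj
      refine ⟨Ideal.Quotient.mk I t, ?_⟩
      have h2 : Ideal.Quotient.mk I i = 0 := Ideal.Quotient.eq_zero_iff_mem.2 hi
      have h3 : x • Ideal.Quotient.mk I t = Ideal.Quotient.mk I (x * t) := rfl
      rw [h3, ← hij, map_add, h2, zero_add, mul_comm]
    have hqx : ∀ m : R ⧸ I, q (x • m) = 0 := by
      intro m
      obtain ⟨a, rfl⟩ := Ideal.Quotient.mk_surjective m
      have h3 : x • Ideal.Quotient.mk I a = Ideal.Quotient.mk I (x * a) := rfl
      rw [h3, hq]
      refine Ideal.Quotient.eq_zero_iff_mem.2 ?_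
      exact Submodule.mem_sup_right (Ideal.mem_span_singleton.2 ⟨a, rfl⟩)
    refine HasRes.of_equiv (CC R h) (fun n => h n + kk h n)
      (fun n => (LinearEquiv.sumArrowLequivProdArrow (Fin (h n)) (Fin (kk h n)) R R).symm ≪≫ₗ
        LinearEquiv.funCongrLeft R R finSumFinEquiv.symm)
      (DC h D x) (q ∘ₗ π ∘ₗ LinearMap.fst R _ _) ?_ ?_ ?_
    · intro i
      cases i with
      | zero =>
        ext ⟨a, b⟩
        constructor
        · rintro ⟨⟨c, d⟩, hcd⟩
          have ha : D 1 c + x • (show Fin (h 1) → R from d) = a := congrArg Prod.fst hcd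
          have hb : - D 0 (show Fin (h 1) → R from d) = (show Fin (h 0) → R from b) :=
            congrArg Prod.snd hcd
          refine LinearMap.mem_ker.2 (Prod.ext ?_ rfl)
          show D 0 a + x • (show Fin (h 0) → R from b) = 0
          rw [← ha, ← hb, map_add, map_smul, e1, zero_add, smul_neg]
          abel
        · intro hab
          have h1 : D 0 a + x • (show Fin (h 0) → R from b) = 0 :=
            congrArg Prod.fst (LinearMap.mem_ker.1 hab)
          have h2 : x • π (show Fin (h 0) → R from b) = 0 := by
            have := congrArg π h1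
            rwa [map_add, e0, zero_add, map_smul, map_zero] at this
          obtain ⟨c, hc⟩ := f0 _ (hxM _ h2)
          have h3 : D 0 (a + x • c) = 0 := by
            rw [map_add, map_smul, hc]
            exact h1
          obtain ⟨d, hd⟩ := f1 _ _ h3
          refine ⟨(d, -c), Prod.ext ?_ ?_⟩
          · show D 1 d + x • (-c) = a
            rw [hd, smul_neg]
            abel
          · show - D 0 (-c) = (show Fin (h 0) → R from b)
            rw [map_neg, neg_neg, hc]
      | succ n =>
        ext ⟨a, b⟩
        constructor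
        · rintro ⟨⟨c, d⟩, hcd⟩
          have ha : D (n + 2) c + x • (show Fin (h (n + 2)) → R from d) = a :=
            congrArg Prod.fst hcd
          have hb : - D (n + 1) (show Fin (h (n + 2)) → R from d) =
            (show Fin (h (n + 1)) → R from b) := congrArg Prod.snd hcd
          refine LinearMap.mem_ker.2 (Prod.ext ?_ ?_)
          · show D (n + 1) a + x • (show Fin (h (n + 1)) → R from b) = 0
            rw [← ha, ← hb, map_add, map_smul, e1, zero_add, smul_neg]
            abel
          · show - D n (show Fin (h (n + 1)) → R from b) = 0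
            rw [← hb, map_neg, e1, neg_zero, neg_zero]
        · intro hab
          have h1 : D (n + 1) a + x • (show Fin (h (n + 1)) → R from b) = 0 :=
            congrArg Prod.fst (LinearMap.mem_ker.1 hab)
          have h2 : - D n (show Fin (h (n + 1)) → R from b) = 0 :=
            congrArg Prod.snd (LinearMap.mem_ker.1 hab)
          obtain ⟨c, hc⟩ := f1 _ _ (neg_eq_zero.1 h2)
          have h3 : D (n + 1) (a + x • c) = 0 := by
            rw [map_add, map_smul, hc]
            exact h1
          obtain ⟨d, hd⟩ := f1 _ _ h3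
          refine ⟨(d, -c), Prod.ext ?_ ?_⟩
          · show D (n + 2) d + x • (-c) = a
            rw [hd, smul_neg]
            abel
          · show - D (n + 1) (-c) = (show Fin (h (n + 1)) → R from b)
            rw [map_neg, neg_neg, hc]
    · intro m
      obtain ⟨a, rfl⟩ := Ideal.Quotient.mk_surjective m
      obtain ⟨c, hc⟩ := hπ (Ideal.Quotient.mk I a)
      refine ⟨(c, 0), ?_⟩
      show q (π c) = _
      rw [hc, hq]
    · ext ⟨a, b⟩
      constructor
      · rintro ⟨⟨c, d⟩, hcd⟩
        have ha : D 0 c + x • (show Fin (h 0) → R from d) = a := congrArg Prod.fst hcd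
        refine LinearMap.mem_ker.2 ?_
        show q (π a) = 0
        rw [← ha, map_add, e0, zero_add, map_smul, hqx]
      · intro hab
        have h1 : q (π a) = 0 := LinearMap.mem_ker.1 hab
        obtain ⟨m', hm'⟩ := hqker _ h1
        obtain ⟨d, rfl⟩ := hπ m'
        have h2 : π (a - x • d) = 0 := by
          rw [map_sub, map_smul, hm', sub_self]
        obtain ⟨c, hc⟩ := f0 _ h2
        refine ⟨(c, d), Prod.ext ?_ ?_⟩
        · show D 0 c + x • d = a
          rw [hc]
          abel
        · exact Subsingleton.elim (α := Fin 0 → R) _ _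
  have hfun : (fun n => h n + kk h n) = (fun n => h n + (if n = 0 then 0 else h (n - 1))) := by
    funext n
    cases n with
    | zero => rfl
    | succ n => simp [kk]
  rw [← hfun]
  exact key

end Pool.Agent.R698.BU
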