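import Pool.Agent.R698.BU.Defs

set_option autoImplicit false

/-! P8: explicit cycles in `JJ` -/

namespace Pool.Agent.R698.BU

namespace CycAux

variable {A : Type} [CommRing A]

lemma eq_snd (v v' : RR A) (h : eX A * v' + eY A * v = 0) :
    v'.snd.fst + v.fst.snd = 0 := by
  have h1 := congrArg (fun r : RR A => r.snd.snd) h
  simpa [eX, eY, TrivSqZeroExt.snd_mul, TrivSqZeroExt.fst_mul, DualNumber.snd_mul] using h1

/-- the element `h' X + h Y` -/
def mk (h h' : A) : RR A :=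
  TrivSqZeroExt.inl (TrivSqZeroExt.inr h') + TrivSqZeroExt.inr (TrivSqZeroExt.inl h)

lemma mk_ff (h h' : A) : (mk h h').fst.fst = 0 := by simp [mk]
lemma mk_fs (h h' : A) : (mk h h').fst.snd = h' := by simp [mk]
lemma mk_sf (h h' : A) : (mk h h').snd.fst = h := by simp [mk]
lemma mk_ss (h h' : A) : (mk h h').snd.snd = 0 := by simp [mk]

lemma mk_rel (h2 : (2 : A) = 0) (h0 h1 h3 : A) : eX A * mk h1 h3 + eY A * mk h0 h1 = 0 := by
  have h2' : h1 + h1 = 0 := by rw [← two_mul, h2, zero_mul]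
  refine TrivSqZeroExt.ext (TrivSqZeroExt.ext ?_ ?_) (TrivSqZeroExt.ext ?_ ?_)
  · simp [eX, eY, mk]
  · simp [eX, eY, mk]
  · simp [eX, eY, mk]
  · simp [eX, eY, mk, h2']

end CycAux

open CycAux

theorem cyc_order (A : Type) [CommRing A] (h2 : (2 : A) = 0) (φ : A →+* LL) (n : ℕ)
    (v : Fin (n + 2) → RR A) (hv : ∀ i, v i ∈ JJ φ)
    (hcyc : ∀ i : Fin (n + 1), eX A * v i.succ + eY A * v i.castSucc = 0) (j : ℕ)
    (hj : j < n + 2) : PowerSeries.coeff j (ev (φ (v 0).snd.fst)) = 0 := by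
  have hstep : ∀ i : ℕ, ∀ hi : i < n + 2,
      T2 ^ (i + 1) * φ (v ⟨i, hi⟩).fst.snd = T1 ^ (i + 1) * φ (v 0).snd.fst := by
    intro i
    induction i with
    | zero =>
      intro hi
      have := (hv ⟨0, hi⟩).2
      simpa using this
    | succ i ih =>
      intro hi
      have h1 := ih (by omega)
      have h3 := (hv ⟨i + 1, hi⟩).2
      have h4 := eq_snd _ _ (hcyc ⟨i, by omega⟩)
      have h5 : (v ⟨i + 1, hi⟩).snd.fst = (v ⟨i, by omega⟩).fst.snd := by
        have e1 : (⟨i, by omega⟩ : Fin (n + 1)).succ = ⟨i + 1, hi⟩ := rfl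
        have e2 : (⟨i, by omega⟩ : Fin (n + 1)).castSucc = ⟨i, by omega⟩ := rfl
        rw [e1, e2] at h4
        have h6 : (v ⟨i, by omega⟩).fst.snd + (v ⟨i, by omega⟩).fst.snd = (0 : A) := by
          rw [← two_mul, h2, zero_mul]
        rw [← h6] at h4
        exact add_right_cancel h4
      rw [h5] at h3
      calc T2 ^ (i + 1 + 1) * φ (v ⟨i + 1, hi⟩).fst.snd
          = T2 ^ (i + 1) * (T2 * φ (v ⟨i + 1, hi⟩).fst.snd) := by ring
        _ = T1 * (T2 ^ (i + 1) * φ (v ⟨i, by omega⟩).fst.snd) := by rw [h3]; ring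
        _ = T1 ^ (i + 1 + 1) * φ (v 0).snd.fst := by rw [h1]; ring
  have h1 := hstep (n + 1) (by omega)
  have h3 := congrArg (PowerSeries.coeff j) h1
  have h4 : PowerSeries.coeff j (T1 ^ (n + 1 + 1) * φ (v 0).snd.fst) =
      PowerSeries.X ^ (n + 1 + 1) * PowerSeries.coeff j (φ (v 0).snd.fst) := by
    unfold T1
    rw [← map_pow, PowerSeries.coeff_C_mul]
  have h5 : PowerSeries.coeff j (T2 ^ (n + 1 + 1) * φ (v ⟨n + 1, by omega⟩).fst.snd) = 0 := by
    unfold T2
    rw [PowerSeries.coeff_X_pow_mul', if_neg (by omega)]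
  rw [h4, h5] at h3
  have h6 : PowerSeries.coeff j (φ (v 0).snd.fst) = 0 := by
    rcases mul_eq_zero.1 h3.symm with h | h
    · exact absurd h (pow_ne_zero _ PowerSeries.X_ne_zero)
    · exact h
  unfold ev
  rw [PowerSeries.coeff_map, h6, map_zero]

theorem cyc_exists (A : Type) [CommRing A] (h2 : (2 : A) = 0) (φ : A →+* LL) (w : Fin 6 → A)
    (hφ : ∀ i : Fin 3, φ (w (Fin.castAdd 3 i)) = cc (sv i) * T2 ∧
      φ (w (Fin.natAdd 3 i)) = cc (sv i) * T1) (n a b : ℕ) (hab : a + b ≤ n + 2) :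
    ∃ v : Fin (n + 2) → RR A, (∀ i, v i ∈ JJ φ) ∧
      (∀ i : Fin (n + 1), eX A * v i.succ + eY A * v i.castSucc = 0) ∧
      ev (φ (v 0).snd.fst) = PowerSeries.C (sv 1 ^ a * sv 2 ^ b) * PowerSeries.X ^ (n + 2) := by
  let σ : ℕ → Fin 3 := fun j => if j < a then 1 else if j < a + b then 2 else 0
  let h : ℕ → A := fun i => ∏ j ∈ Finset.range (n + 2),
    if j < i then w (Fin.natAdd 3 (σ j)) else w (Fin.castAdd 3 (σ j))
  have hσ : ∀ N : ℕ, a + b ≤ N → ∏ j ∈ Finset.range N, sv (σ j) = sv 1 ^ a * sv 2 ^ b := by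
    intro N hN
    obtain ⟨c, rfl⟩ := Nat.exists_eq_add_of_le hN
    rw [Finset.prod_range_add, Finset.prod_range_add]
    have e1 : ∏ x ∈ Finset.range a, sv (σ x) = sv 1 ^ a := by
      rw [Finset.prod_congr rfl (g := fun _ => sv 1) (fun x hx => ?_), Finset.prod_const,
        Finset.card_range]
      simp only [σ, if_pos (Finset.mem_range.1 hx)]
    have e2 : ∏ x ∈ Finset.range b, sv (σ (a + x)) = sv 2 ^ b := by
      rw [Finset.prod_congr rfl (g := fun _ => sv 2) (fun x hx => ?_), Finset.prod_const,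
        Finset.card_range]
      have := Finset.mem_range.1 hx
      simp only [σ]
      rw [if_neg (by omega), if_pos (by omega)]
    have e3 : ∏ x ∈ Finset.range c, sv (σ (a + b + x)) = 1 := by
      refine Finset.prod_eq_one (fun x _ => ?_)
      simp only [σ]
      rw [if_neg (by omega), if_neg (by omega)]
      simp [sv]
    rw [e1, e2, e3, mul_one]
  have hφh : ∀ i : ℕ, i ≤ n + 2 →
      φ (h i) = cc (sv 1 ^ a * sv 2 ^ b) * (T1 ^ i * T2 ^ (n + 2 - i)) := by
    intro i hi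
    simp only [h]
    rw [map_prod]
    have e1 : ∀ j ∈ Finset.range (n + 2),
        φ (if j < i then w (Fin.natAdd 3 (σ j)) else w (Fin.castAdd 3 (σ j))) =
          cc (sv (σ j)) * (if j < i then T1 else T2) := by
      intro j _
      split_ifs
      · exact (hφ (σ j)).2
      · exact (hφ (σ j)).1
    rw [Finset.prod_congr rfl e1, Finset.prod_mul_distrib]
    congr 1
    · have : ∀ s : Finset ℕ, ∏ j ∈ s, cc (sv (σ j)) = cc (∏ j ∈ s, sv (σ j)) := by
        intro s
        unfold cc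
        rw [map_prod, map_prod]
      rw [this, hσ (n + 2) hab]
    · obtain ⟨c, hc⟩ := Nat.exists_eq_add_of_le hi
      rw [hc, Finset.prod_range_add]
      congr 1
      · rw [Finset.prod_congr rfl (g := fun _ => T1) (fun x hx => ?_), Finset.prod_const,
          Finset.card_range]
        rw [if_pos (Finset.mem_range.1 hx)]
      · rw [Finset.prod_congr rfl (g := fun _ => T2) (fun x _ => ?_), Finset.prod_const,
          Finset.card_range]
        · congr 1
          omega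
        · rw [if_neg (by omega)]
  refine ⟨fun i => mk (h i) (h (i + 1)), ?_, ?_, ?_⟩
  · intro i
    have hi : (i : ℕ) + 1 ≤ n + 2 := i.2
    refine ⟨mk_ff _ _, ?_⟩
    rw [mk_fs, mk_sf, hφh _ hi, hφh _ (by omega)]
    have e : n + 2 - (i : ℕ) = (n + 2 - ((i : ℕ) + 1)) + 1 := by omega
    rw [e]
    ring
  · intro i
    have e1 : ((i.succ : Fin (n + 2)) : ℕ) = (i : ℕ) + 1 := rfl
    have e2 : ((i.castSucc : Fin (n + 2)) : ℕ) = (i : ℕ) := rfl
    simp only [e1, e2]
    exact mk_rel h2 _ _ _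
  · have e0 : (((0 : Fin (n + 2)) : ℕ)) = 0 := rfl
    simp only [mk_sf, e0]
    rw [hφh 0 (by omega)]
    generalize sv 1 ^ a * sv 2 ^ b = c
    unfold ev cc T2
    rw [pow_zero, one_mul, Nat.sub_zero, map_mul, map_pow, PowerSeries.map_C,
      PowerSeries.map_X, PowerSeries.constantCoeff_C]

end Pool.Agent.R698.BU
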