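import Pool.Agent.R698.BU.Defs

set_option autoImplicit false

/-! Functoriality and linearity of Tor (project BU, piece P3). -/

open CategoryTheory MonoidalCategory

namespace Pool.Agent.R698.BU

namespace FuncAux

variable {R : Type} [CommRing R]

theorem hom_smul {K L : ChainComplex (ModuleCat.{0} R) ℕ} (g : K ⟶ L) (r : R) (n : ℕ) :
    (HomologicalComplex.homologyFunctor (ModuleCat.{0} R) (ComplexShape.down ℕ) n).map (r • g) =
      r • (HomologicalComplex.homologyFunctor (ModuleCat.{0} R) (ComplexShape.down ℕ) n).map g := by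
  have h : (HomologicalComplex.shortComplexFunctor (ModuleCat.{0} R) (ComplexShape.down ℕ) n).map
      (r • g) = r • (HomologicalComplex.shortComplexFunctor (ModuleCat.{0} R)
        (ComplexShape.down ℕ) n).map g := by
    ext <;> rfl
  change ShortComplex.homologyMap ((HomologicalComplex.shortComplexFunctor (ModuleCat.{0} R)
    (ComplexShape.down ℕ) n).map (r • g)) = _
  rw [h, ShortComplex.homologyMap_smul]
  rfl

theorem ld_smul (F : ModuleCat.{0} R ⥤ ModuleCat.{0} R) [F.Additive] [F.Linear R] (n : ℕ)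
    (A : ModuleCat.{0} R) (r : R) :
    (F.leftDerived n).map (r • 𝟙 A) = r • 𝟙 ((F.leftDerived n).obj A) := by
  let P : ProjectiveResolution A := ProjectiveResolution.of A
  have w : (r • 𝟙 P.complex) ≫ P.π = P.π ≫ (ChainComplex.single₀ (ModuleCat.{0} R)).map
      (r • 𝟙 A) := by
    apply HomologicalComplex.to_single_hom_ext
    rw [HomologicalComplex.comp_f, HomologicalComplex.comp_f, ChainComplex.single₀_map_f_zero]
    refine (Linear.smul_comp _ _ _ r (𝟙 _) (P.π.f 0)).trans ?_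
    refine Eq.trans ?_ (Linear.comp_smul _ _ _ (P.π.f 0) r (𝟙 _)).symm
    erw [Category.id_comp]
  rw [Functor.leftDerived_map_eq F n (r • 𝟙 A) (P := P) (Q := P) (r • 𝟙 P.complex) w,
    Functor.comp_map, Functor.map_smul, hom_smul, CategoryTheory.Functor.map_id,
    CategoryTheory.Functor.map_id,
    Linear.smul_comp, Linear.comp_smul, Category.id_comp, Iso.hom_inv_id]

theorem nt_smul (B A : ModuleCat.{0} R) (n : ℕ) (r : R) :
    ((Tor (ModuleCat.{0} R) n).map (r • 𝟙 B)).app A =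
      r • 𝟙 (((Tor (ModuleCat.{0} R) n).obj B).obj A) := by
  let P : ProjectiveResolution A := ProjectiveResolution.of A
  change (NatTrans.leftDerived ((tensoringLeft (ModuleCat.{0} R)).map (r • 𝟙 B)) n).app A = _
  rw [ProjectiveResolution.leftDerived_app_eq _ P n]
  have h : (NatTrans.mapHomologicalComplex ((tensoringLeft (ModuleCat.{0} R)).map (r • 𝟙 B))
      (ComplexShape.down ℕ)).app P.complex = r • 𝟙 _ := by
    ext i : 1
    change (r • 𝟙 B) ▷ (P.complex.X i) = r • 𝟙 _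
    rw [MonoidalLinear.smul_whiskerRight, MonoidalCategory.id_whiskerRight]
    rfl
  rw [h, hom_smul, CategoryTheory.Functor.map_id, Linear.smul_comp, Linear.comp_smul, Category.id_comp,
    Iso.hom_inv_id]
  rfl

theorem mo_smul (B A : ModuleCat.{0} R) (n : ℕ) (r : R) :
    ((Tor (ModuleCat.{0} R) n).obj B).map (r • 𝟙 A) =
      r • 𝟙 (((Tor (ModuleCat.{0} R) n).obj B).obj A) :=
  ld_smul ((tensoringLeft (ModuleCat.{0} R)).obj B) n A r

/-- inclusion -/
def inc (m a : Ideal R) : ↥(m * a) →ₗ[R] ↥a := Submodule.inclusion Ideal.mul_le_right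

/-- multiplication by an element of `m` -/
def mul (m a : Ideal R) (r : R) (hr : r ∈ m) : ↥a →ₗ[R] ↥(m * a) where
  toFun x := ⟨r * x.1, Ideal.mul_mem_mul hr x.2⟩
  map_add' x y := by
    apply Subtype.ext
    exact mul_add _ _ _
  map_smul' c x := by
    apply Subtype.ext
    show r * (c * x.1) = c * (r * x.1)
    ring

theorem inc_mul (m a : Ideal R) (r : R) (hr : r ∈ m) :
    ModuleCat.ofHom (mul m a r hr) ≫ ModuleCat.ofHom (inc m a) =
      r • 𝟙 (ModuleCat.of R ↥a) := by
  ext x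
  rfl

end FuncAux

/-- P3 (file Func.lean) -/
theorem tor_func (R : Type) [CommRing R] (m a b : Ideal R) (n : ℕ) :
    ∃ Θ : (TorM R n ↥(m * b) ↥(m * a)) →ₗ[R] (TorM R n ↥b ↥a),
      ∀ r ∈ m, ∀ r' ∈ m, ∀ w, (r * r') • w ∈ LinearMap.range Θ := by
  let T := Tor (ModuleCat.{0} R) n
  let Θ : (T.obj (ModuleCat.of R ↥(m * b))).obj (ModuleCat.of R ↥(m * a)) ⟶
      (T.obj (ModuleCat.of R ↥b)).obj (ModuleCat.of R ↥a) :=
    (T.map (ModuleCat.ofHom (FuncAux.inc m b))).app (ModuleCat.of R ↥(m * a)) ≫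
      (T.obj (ModuleCat.of R ↥b)).map (ModuleCat.ofHom (FuncAux.inc m a))
  refine ⟨Θ.hom, ?_⟩
  intro r hr r' hr' w
  let Θ' : (T.obj (ModuleCat.of R ↥b)).obj (ModuleCat.of R ↥a) ⟶
      (T.obj (ModuleCat.of R ↥(m * b))).obj (ModuleCat.of R ↥(m * a)) :=
    (T.obj (ModuleCat.of R ↥b)).map (ModuleCat.ofHom (FuncAux.mul m a r hr)) ≫
      (T.map (ModuleCat.ofHom (FuncAux.mul m b r' hr'))).app (ModuleCat.of R ↥(m * a))
  have h : Θ' ≫ Θ = (r * r') • 𝟙 _ := by
    show ((T.obj (ModuleCat.of R ↥b)).map (ModuleCat.ofHom (FuncAux.mul m a r hr)) ≫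
      (T.map (ModuleCat.ofHom (FuncAux.mul m b r' hr'))).app (ModuleCat.of R ↥(m * a))) ≫
      ((T.map (ModuleCat.ofHom (FuncAux.inc m b))).app (ModuleCat.of R ↥(m * a)) ≫
      (T.obj (ModuleCat.of R ↥b)).map (ModuleCat.ofHom (FuncAux.inc m a))) = _
    rw [Category.assoc]
    have h1 : (T.map (ModuleCat.ofHom (FuncAux.mul m b r' hr'))).app (ModuleCat.of R ↥(m * a)) ≫
        (T.map (ModuleCat.ofHom (FuncAux.inc m b))).app (ModuleCat.of R ↥(m * a)) =
        r' • 𝟙 _ := by
      rw [← NatTrans.comp_app, ← Functor.map_comp, FuncAux.inc_mul]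
      exact FuncAux.nt_smul _ _ n r'
    have h2 : (T.obj (ModuleCat.of R ↥b)).map (ModuleCat.ofHom (FuncAux.mul m a r hr)) ≫
        (T.obj (ModuleCat.of R ↥b)).map (ModuleCat.ofHom (FuncAux.inc m a)) = r • 𝟙 _ := by
      rw [← Functor.map_comp, FuncAux.inc_mul]
      exact FuncAux.mo_smul _ _ n r
    rw [← Category.assoc ((T.map (ModuleCat.ofHom (FuncAux.mul m b r' hr'))).app _), h1,
      Linear.smul_comp, Category.id_comp, Linear.comp_smul, h2, smul_smul, mul_comm]
  refine ⟨Θ'.hom w, ?_⟩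
  have h3 := congrArg (fun f => f.hom w) h
  exact h3

end Pool.Agent.R698.BU
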