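import Mathlib
import Pool.Agent.R698.BU.Defs

set_option autoImplicit false

/-! P13 of project BU: elementary growth lemmas. -/

namespace Pool.Agent.R698.BU

/-- P13 (file Growth.lean) -/
theorem cplx_upper (f : ℕ → ℕ∞) (c : ℕ) (hf : ∀ n : ℕ, f (n + 1) ≤ (c * (n + 2) : ℕ)) :
    cplx f ≤ 2 := by
  have h : GrowthLe f 2 := by
    refine ⟨2 * c, ?_⟩
    filter_upwards [Filter.eventually_ge_atTop 1] with n hn
    obtain ⟨k, rfl⟩ : ∃ k, n = k + 1 := ⟨n - 1, by omega⟩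
    have h1 := hf k
    calc f (k + 1) * ((k + 1 : ℕ) : ℕ∞) ≤ ((c * (k + 2) : ℕ) : ℕ∞) * ((k + 1 : ℕ) : ℕ∞) := by
          gcongr
      _ = ((c * (k + 2) * (k + 1) : ℕ) : ℕ∞) := by push_cast; ring
      _ ≤ ((2 * c * (k + 1) ^ 2 : ℕ) : ℕ∞) := by
          have : c * (k + 2) * (k + 1) ≤ 2 * c * (k + 1) ^ 2 := by
            have h2 : c * (k + 2) * (k + 1) ≤ c * (2 * (k + 1)) * (k + 1) := by
              gcongr
              omega
            calc c * (k + 2) * (k + 1) ≤ c * (2 * (k + 1)) * (k + 1) := h2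
              _ = 2 * c * (k + 1) ^ 2 := by ring
          exact_mod_cast this
      _ = ((2 * c : ℕ) : ℕ∞) * ((k + 1 : ℕ) : ℕ∞) ^ 2 := by push_cast; ring
  have := iInf₂_le (f := fun (d : ℕ) (_ : GrowthLe f d) => (d : ℕ∞)) 2 h
  simpa [cplx] using this

/-- P13 (file Growth.lean) -/
theorem cplx_lower (f : ℕ → ℕ∞) (L : ℕ)
    (hf : ∀ n : ℕ, ∀ u : ℕ, f (n + 1) = (u : ℕ∞) → ((n + 2) / 2 + 1) ^ 2 ≤ L * u) :
    3 ≤ cplx f := by
  refine le_iInf₂ fun d hd => ?_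
  by_contra hlt
  have hd2 : d ≤ 2 := by
    by_contra h3
    apply hlt
    have : (3 : ℕ) ≤ d := by omega
    exact_mod_cast this
  obtain ⟨a, ha⟩ := hd
  obtain ⟨n, hn, hbig⟩ := (ha.and (Filter.eventually_ge_atTop (4 * L * a + 1))).exists
  obtain ⟨k, rfl⟩ : ∃ k, n = k + 1 := ⟨n - 1, by omega⟩
  have hfin : f (k + 1) ≠ ⊤ := by
    intro htop
    rw [htop] at hn
    have h1 : (⊤ : ℕ∞) * ((k + 1 : ℕ) : ℕ∞) = ⊤ := by
      apply ENat.top_mul
      exact_mod_cast Nat.succ_ne_zero k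
    rw [h1] at hn
    have h2 : (a : ℕ∞) * ((k + 1 : ℕ) : ℕ∞) ^ d = ((a * (k + 1) ^ d : ℕ) : ℕ∞) := by
      push_cast; ring
    rw [h2] at hn
    exact ENat.coe_ne_top _ (top_le_iff.mp hn)
  obtain ⟨u, hu⟩ := ENat.ne_top_iff_exists.mp hfin
  have h3 := hf k u hu.symm
  rw [← hu] at hn
  have h4 : u * (k + 1) ≤ a * (k + 1) ^ d := by exact_mod_cast hn
  have h5 : u * (k + 1) ≤ a * (k + 1) * (k + 1) := by
    calc u * (k + 1) ≤ a * (k + 1) ^ d := h4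
      _ ≤ a * (k + 1) ^ 2 := by
          gcongr
          omega
      _ = a * (k + 1) * (k + 1) := by ring
  have h6 : u ≤ a * (k + 1) := Nat.le_of_mul_le_mul_right h5 (Nat.succ_pos k)
  have h7 : k + 1 ≤ 2 * ((k + 2) / 2 + 1) := by omega
  have h8 : (k + 1) * (k + 1) ≤ (4 * L * a) * (k + 1) := by
    calc (k + 1) * (k + 1) ≤ (2 * ((k + 2) / 2 + 1)) * (2 * ((k + 2) / 2 + 1)) := by gcongr
      _ = 4 * ((k + 2) / 2 + 1) ^ 2 := by ring
      _ ≤ 4 * (L * u) := by gcongr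
      _ ≤ 4 * (L * (a * (k + 1))) := by gcongr
      _ = (4 * L * a) * (k + 1) := by ring
  have h9 : k + 1 ≤ 4 * L * a := Nat.le_of_mul_le_mul_right h8 (Nat.succ_pos k)
  omega

end Pool.Agent.R698.BU
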