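import Pool.Agent.R698.BU.Defs

/-!
# BU-P9 (helper310)
-/

set_option autoImplicit false

namespace Pool.Agent.R698.BU

open IsLocalRing

/-- P9 -/
theorem exists_fin_reps (A : Type) [CommRing A] [IsLocalRing A] (v : Fin 6 → A)
    (hm : maximalIdeal A = Ideal.span (Set.range v))
    (hres : ∀ a : A, a ∈ maximalIdeal A ∨ a - 1 ∈ maximalIdeal A) :
    ∃ (L : ℕ) (b : Fin L → A), ∀ a : A, ∃ S : Finset (Fin L),
      a - ∑ i ∈ S, b i ∈ maximalIdeal A ^ 3 := by
  classical
  have hbool : ∀ a : A, ∃ e : Bool, a - (if e = true then 1 else 0) ∈ maximalIdeal A := by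
    intro a
    rcases hres a with h | h
    · exact ⟨false, by simpa using h⟩
    · exact ⟨true, by simpa using h⟩
  choose ε hε using hbool
  have hdec : ∀ a : A, ∃ c : Fin 6 → A, a = (if ε a = true then 1 else 0) + ∑ i, c i * v i := by
    intro a
    have h1 := hε a
    rw [hm, Ideal.mem_span_range_iff_exists_fun] at h1
    obtain ⟨c, hc⟩ := h1
    exact ⟨c, by rw [hc]; ring⟩
  choose c hc using hdec
  have hvm : ∀ i, v i ∈ maximalIdeal A := by
    intro i
    rw [hm]
    exact Ideal.subset_span ⟨i, rfl⟩
  let ι := Unit ⊕ (Fin 6 ⊕ (Fin 6 × Fin 6))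
  let b' : ι → A := Sum.elim (fun _ => 1) (Sum.elim v (fun p => v p.1 * v p.2))
  have key : ∀ a : A, ∃ S : Finset ι, a - ∑ i ∈ S, b' i ∈ maximalIdeal A ^ 3 := by
    intro a
    let f : ι → Bool := Sum.elim (fun _ => ε a) (Sum.elim (fun i => ε (c a i))
      (fun p => ε (c (c a p.1) p.2)))
    refine ⟨Finset.univ.filter (fun i => f i = true), ?_⟩
    have h1 : ∑ i ∈ Finset.univ.filter (fun i => f i = true), b' i
        = (if ε a = true then 1 else 0) + ((∑ i, if ε (c a i) = true then v i else 0)
          + ∑ i, ∑ j, if ε (c (c a i) j) = true then v i * v j else 0) := by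
      rw [Finset.sum_filter, Fintype.sum_sum_type, Fintype.sum_sum_type, Fintype.sum_prod_type]
      simp only [f, b', Sum.elim_inl, Sum.elim_inr, Finset.univ_unique, Finset.sum_singleton]
    have h2 : a - ∑ i ∈ Finset.univ.filter (fun i => f i = true), b' i
        = ∑ i, ∑ j, (c (c a i) j - (if ε (c (c a i) j) = true then 1 else 0)) * v j * v i := by
      rw [h1]
      have e1 : a = (if ε a = true then 1 else 0) + ∑ i, c a i * v i := hc a
      have e2 : ∀ i, c a i * v i = (if ε (c a i) = true then v i else 0)
          + ∑ j, c (c a i) j * v j * v i := by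
        intro i
        conv_lhs => rw [hc (c a i)]
        rw [add_mul, Finset.sum_mul]
        congr 1
        split_ifs
        · rw [one_mul]
        · rw [zero_mul]
      have e3 : ∀ i j, (c (c a i) j - (if ε (c (c a i) j) = true then 1 else 0)) * v j * v i
          = c (c a i) j * v j * v i - (if ε (c (c a i) j) = true then v i * v j else 0) := by
        intro i j
        split_ifs
        · ring
        · ring
      have e4 : ∑ i, c a i * v i = (∑ i, if ε (c a i) = true then v i else 0)
          + ∑ i, ∑ j, c (c a i) j * v j * v i := by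
        rw [← Finset.sum_add_distrib]
        exact Finset.sum_congr rfl fun i _ => e2 i
      simp only [e3, Finset.sum_sub_distrib]
      linear_combination e1 + e4
    rw [h2]
    apply Ideal.sum_mem
    intro i _
    apply Ideal.sum_mem
    intro j _
    rw [pow_succ, pow_two]
    exact Ideal.mul_mem_mul (Ideal.mul_mem_mul (hε _) (hvm j)) (hvm i)
  let e := Fintype.equivFin ι
  refine ⟨Fintype.card ι, fun i => b' (e.symm i), ?_⟩
  intro a
  obtain ⟨S, hS⟩ := key a
  refine ⟨S.map e.toEmbedding, ?_⟩
  rw [Finset.sum_map]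
  simpa using hS

end Pool.Agent.R698.BU
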