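import Mathlib
import Pool.Agent.R698.BU.Defs

set_option autoImplicit false

/-! P6 (helper160): resolution of the residue field, iterating the cone. -/

namespace Pool.Agent.R698.BU

open IsLocalRing

namespace Kos

/-- the map `r ↦ r.fst.fst` -/
def ff (A : Type) [CommRing A] : RR A →+* A where
  toFun r := r.fst.fst
  map_one' := by simp
  map_mul' r s := by simp
  map_zero' := by simp
  map_add' r s := by simp

theorem ff_apply {A : Type} [CommRing A] (r : RR A) : ff A r = r.fst.fst := rfl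

theorem ff_ofA {A : Type} [CommRing A] (a : A) : ff A (ofA A a) = a := by
  rw [ff_apply]; simp [ofA]

theorem mem_IA' (A : Type) [CommRing A] (r : RR A) : r ∈ IA A ↔ ff A r = 0 := by
  constructor
  · intro h
    have hle : IA A ≤ RingHom.ker (ff A) := by
      unfold IA
      rw [Ideal.span_le]
      rintro x (rfl | rfl)
      · show ff A (eX A) = 0
        rw [ff_apply]; simp [eX]
      · show ff A (eY A) = 0
        rw [ff_apply]; simp [eY]
    exact hle h
  · intro h
    have h' : r.fst.fst = 0 := h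
    have hr : r = ofA A r.fst.snd * eX A + (TrivSqZeroExt.inl r.snd) * eY A := by
      unfold ofA eX eY
      ext <;> simp [h']
    rw [hr]
    exact Ideal.add_mem _ (Ideal.mul_mem_left _ _ (Ideal.subset_span (by simp)))
      (Ideal.mul_mem_left _ _ (Ideal.subset_span (by simp)))

theorem mem_max' (A : Type) [CommRing A] [IsLocalRing A] [IsLocalRing (RR A)] (r : RR A) :
    r ∈ maximalIdeal (RR A) ↔ ff A r ∈ maximalIdeal A := by
  rw [mem_maximalIdeal, mem_maximalIdeal, mem_nonunits_iff, mem_nonunits_iff]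
  apply not_congr
  rw [TrivSqZeroExt.isUnit_iff_isUnit_fst, TrivSqZeroExt.isUnit_iff_isUnit_fst]
  rfl

/-- the ideal of the first `j` elements -/
def WW {A : Type} [CommRing A] (v : Fin 6 → A) (j : ℕ) : Ideal A :=
  Ideal.span (v '' {l | (l : ℕ) < j})

def KK {A : Type} [CommRing A] (v : Fin 6 → A) (j : ℕ) : Ideal (RR A) := (WW v j).comap (ff A)

theorem mem_KK {A : Type} [CommRing A] (v : Fin 6 → A) (j : ℕ) (r : RR A) :
    r ∈ KK v j ↔ ff A r ∈ WW v j := Iff.rfl

theorem WW_succ {A : Type} [CommRing A] (v : Fin 6 → A) (j : ℕ) (hj : j < 6) :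
    WW v (j + 1) = Ideal.span (insert (v ⟨j, hj⟩) (v '' {l | (l : ℕ) < j})) := by
  unfold WW
  rw [← Set.image_insert_eq]
  congr 2
  ext l
  simp only [Set.mem_ofPred_eq, Set.mem_insert_iff, Fin.ext_iff]
  omega

theorem KK_succ {A : Type} [CommRing A] (v : Fin 6 → A) (j : ℕ) (hj : j < 6) :
    KK v (j + 1) = KK v j ⊔ Ideal.span {ofA A (v ⟨j, hj⟩)} := by
  apply le_antisymm
  · intro r hr
    rw [mem_KK, WW_succ v j hj, Ideal.mem_span_insert] at hr
    obtain ⟨c, z, hz, hrz⟩ := hr
    have h1 : r - ofA A c * ofA A (v ⟨j, hj⟩) ∈ KK v j := by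
      rw [mem_KK, map_sub, map_mul, ff_ofA, ff_ofA, hrz]
      rw [add_sub_cancel_left]
      exact hz
    have h2 : ofA A c * ofA A (v ⟨j, hj⟩) ∈ Ideal.span {ofA A (v ⟨j, hj⟩)} :=
      Ideal.mul_mem_left _ _ (Ideal.subset_span rfl)
    have h3 := Submodule.add_mem_sup h1 h2
    rwa [sub_add_cancel] at h3
  · apply sup_le
    · intro r hr
      rw [mem_KK] at hr ⊢
      refine Ideal.span_mono (Set.image_mono ?_) hr
      intro l hl
      simp only [Set.mem_ofPred_eq] at hl ⊢
      omega
    · rw [Ideal.span_singleton_le_iff_mem, mem_KK, ff_ofA]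
      exact Ideal.subset_span ⟨⟨j, hj⟩, by simp, rfl⟩

end Kos

open Kos in
/-- P6 (file Kos.lean) -/
theorem hasRes_k (A : Type) [CommRing A] [IsLocalRing A] [IsLocalRing (RR A)]
    (v : Fin 6 → A) (hm : maximalIdeal A = Ideal.span (Set.range v))
    (hreg : ∀ (j : Fin 6) (a : A), v j * a ∈ Ideal.span (v '' {l | l < j}) →
      a ∈ Ideal.span (v '' {l | l < j}))
    (hL : HasRes (RR A) (RR A ⧸ IA A) (fun n => n + 1))
    (hcone : ∀ (I : Ideal (RR A)) (h : ℕ → ℕ), HasRes (RR A) (RR A ⧸ I) h → ∀ x : RR A,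
      (∀ a, x * a ∈ I → a ∈ I) →
      HasRes (RR A) (RR A ⧸ (I ⊔ Ideal.span {x})) (fun n => h n + (if n = 0 then 0 else h (n - 1)))) :
    ∃ h : ℕ → ℕ, HasRes (RR A) (RR A ⧸ maximalIdeal (RR A)) h ∧ ∀ n, h n ≤ 64 * (n + 1) := by
  have key : ∀ j : ℕ, j ≤ 6 → ∃ h : ℕ → ℕ, HasRes (RR A) (RR A ⧸ KK v j) h ∧
      ∀ n, h n ≤ 2 ^ j * (n + 1) := by
    intro j
    induction j with
    | zero =>
      intro _
      refine ⟨fun n => n + 1, ?_, fun n => by simp⟩
      have h0 : KK v 0 = IA A := by
        ext r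
        rw [mem_KK, mem_IA']
        unfold WW
        simp
      rw [h0]
      exact hL
    | succ j ih =>
      intro hj
      obtain ⟨h, hh, hb⟩ := ih (by omega)
      refine ⟨fun n => h n + (if n = 0 then 0 else h (n - 1)), ?_, ?_⟩
      · rw [KK_succ v j (by omega)]
        refine hcone _ h hh _ ?_
        intro a ha
        rw [mem_KK, map_mul, ff_ofA] at ha
        exact hreg ⟨j, by omega⟩ _ ha
      · intro n
        have h1 := hb n
        have h2 : (if n = 0 then 0 else h (n - 1)) ≤ 2 ^ j * (n + 1) := by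
          split_ifs with h0
          · exact Nat.zero_le _
          · refine (hb (n - 1)).trans ?_
            exact Nat.mul_le_mul_left _ (by omega)
        calc h n + (if n = 0 then 0 else h (n - 1)) ≤ 2 ^ j * (n + 1) + 2 ^ j * (n + 1) :=
              add_le_add h1 h2
          _ = 2 ^ (j + 1) * (n + 1) := by ring
  obtain ⟨h, hh, hb⟩ := key 6 le_rfl
  refine ⟨h, ?_, fun n => by simpa using hb n⟩
  have h6 : KK v 6 = maximalIdeal (RR A) := by
    ext r
    rw [mem_KK, mem_max', hm]
    unfold WW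
    have : {l : Fin 6 | (l : ℕ) < 6} = Set.univ := by
      ext l
      simp
    rw [this, Set.image_univ]
  rw [← h6]
  exact hh

end Pool.Agent.R698.BU
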