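import Pool.Agent.R698.BU.Defs

set_option autoImplicit false
set_option linter.unusedSimpArgs false

/-! P4: explicit resolution of `(X, Y)` over `A[X,Y]/(X²,Y²)` in characteristic 2. -/

namespace Pool.Agent.R698.BU

namespace ResL

/-- coordinates -/
def mk4 {A : Type} [CommRing A] (a b c d : A) : RR A := ((a, b), (c, d))

theorem ext4 {A : Type} [CommRing A] {r s : RR A} (h1 : r.fst.fst = s.fst.fst)
    (h2 : r.fst.snd = s.fst.snd) (h3 : r.snd.fst = s.snd.fst) (h4 : r.snd.snd = s.snd.snd) :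
    r = s :=
  TrivSqZeroExt.ext (TrivSqZeroExt.ext h1 h2) (TrivSqZeroExt.ext h3 h4)

section

variable {A : Type} [CommRing A] (u v : RR A)

theorem co1 : (eX A * u + eY A * v).fst.fst = 0 := by
  simp only [eX, eY, TrivSqZeroExt.fst_add, TrivSqZeroExt.snd_add, TrivSqZeroExt.fst_mul,
    TrivSqZeroExt.snd_mul, TrivSqZeroExt.fst_inl, TrivSqZeroExt.snd_inl, DualNumber.fst_eps,
    DualNumber.snd_eps, smul_eq_mul, MulOpposite.smul_eq_mul_unop, MulOpposite.unop_op,
    TrivSqZeroExt.fst_zero, TrivSqZeroExt.snd_zero, mul_zero, zero_mul, add_zero, zero_add,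
    one_mul, mul_one]

theorem co2 : (eX A * u + eY A * v).fst.snd = u.fst.fst := by
  simp only [eX, eY, TrivSqZeroExt.fst_add, TrivSqZeroExt.snd_add, TrivSqZeroExt.fst_mul,
    TrivSqZeroExt.snd_mul, TrivSqZeroExt.fst_inl, TrivSqZeroExt.snd_inl, DualNumber.fst_eps,
    DualNumber.snd_eps, smul_eq_mul, MulOpposite.smul_eq_mul_unop, MulOpposite.unop_op,
    TrivSqZeroExt.fst_zero, TrivSqZeroExt.snd_zero, mul_zero, zero_mul, add_zero, zero_add,
    one_mul, mul_one]

theorem co3 : (eX A * u + eY A * v).snd.fst = v.fst.fst := by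
  simp only [eX, eY, TrivSqZeroExt.fst_add, TrivSqZeroExt.snd_add, TrivSqZeroExt.fst_mul,
    TrivSqZeroExt.snd_mul, TrivSqZeroExt.fst_inl, TrivSqZeroExt.snd_inl, DualNumber.fst_eps,
    DualNumber.snd_eps, smul_eq_mul, MulOpposite.smul_eq_mul_unop, MulOpposite.unop_op,
    TrivSqZeroExt.fst_zero, TrivSqZeroExt.snd_zero, mul_zero, zero_mul, add_zero, zero_add,
    one_mul, mul_one]

theorem co4 : (eX A * u + eY A * v).snd.snd = u.snd.fst + v.fst.snd := by
  simp only [eX, eY, TrivSqZeroExt.fst_add, TrivSqZeroExt.snd_add, TrivSqZeroExt.fst_mul,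
    TrivSqZeroExt.snd_mul, TrivSqZeroExt.fst_inl, TrivSqZeroExt.snd_inl, DualNumber.fst_eps,
    DualNumber.snd_eps, smul_eq_mul, MulOpposite.smul_eq_mul_unop, MulOpposite.unop_op,
    TrivSqZeroExt.fst_zero, TrivSqZeroExt.snd_zero, mul_zero, zero_mul, add_zero, zero_add,
    one_mul, mul_one]

end

theorem mem_IA (A : Type) [CommRing A] (a b : RR A) : eX A * a + eY A * b ∈ IA A := by
  have h : eX A * a + eY A * b = a • eX A + b • eY A := by
    simp only [smul_eq_mul]
    ring
  rw [h]
  exact Submodule.add_mem _ (Submodule.smul_mem _ _ (Ideal.subset_span (by simp)))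
    (Submodule.smul_mem _ _ (Ideal.subset_span (by simp)))

end ResL

open ResL

theorem extN_DD (R : Type) [CommRing R] (X Y : R) (n : ℕ) (N : Type) [AddCommGroup N]
    [Module R N] : extN (DD X Y R n) N = DD X Y N n := by
  refine LinearMap.ext (fun v => funext (fun i => ?_))
  show ∑ j, (X • (Pi.single j (1 : R) : Fin (n + 2) → R) i.succ +
    Y • (Pi.single j (1 : R) : Fin (n + 2) → R) i.castSucc) • v j = X • v i.succ + Y • v i.castSucc
  simp only [smul_eq_mul, add_smul, Finset.sum_add_distrib]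
  congr 1
  · rw [Finset.sum_eq_single i.succ]
    · simp
    · intro j _ hj
      rw [Pi.single_eq_of_ne (Ne.symm hj)]
      simp
    · intro h
      exact absurd (Finset.mem_univ _) h
  · rw [Finset.sum_eq_single i.castSucc]
    · simp
    · intro j _ hj
      rw [Pi.single_eq_of_ne (Ne.symm hj)]
      simp
    · intro h
      exact absurd (Finset.mem_univ _) h

theorem DD_exact (A : Type) [CommRing A] (h2 : (2 : A) = 0) (n : ℕ) :
    LinearMap.range (DD (eX A) (eY A) (RR A) (n + 1)) =
      LinearMap.ker (DD (eX A) (eY A) (RR A) n) := by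
  have hneg : ∀ a b : A, a + b = 0 → a = b := by
    intro a b h
    linear_combination h - b * h2
  apply le_antisymm
  · rintro _ ⟨v, rfl⟩
    rw [LinearMap.mem_ker]
    funext i
    show eX A * (eX A * v i.succ.succ + eY A * v i.succ.castSucc) +
      eY A * (eX A * v i.castSucc.succ + eY A * v i.castSucc.castSucc) = 0
    refine ext4 ?_ ?_ ?_ ?_
    · rw [co1]; rfl
    · rw [co2, co1]; rfl
    · rw [co3, co1]; rfl
    · rw [co4, co3, co2, Fin.succ_castSucc]
      show _ = (0 : A)
      linear_combination ((v i.succ.castSucc).fst.fst) * h2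
  · intro v hv
    rw [LinearMap.mem_ker] at hv
    have hv' : ∀ i : Fin (n + 1), eX A * v i.succ + eY A * v i.castSucc = 0 := fun i =>
      congrFun hv i
    have e1 : ∀ i : Fin (n + 1), (v i.succ).fst.fst = 0 := by
      intro i
      rw [← co2 (v i.succ) (v i.castSucc), hv' i]
      rfl
    have e2 : ∀ i : Fin (n + 1), (v i.castSucc).fst.fst = 0 := by
      intro i
      rw [← co3 (v i.succ) (v i.castSucc), hv' i]
      rfl
    have e3 : ∀ i : Fin (n + 1), (v i.succ).snd.fst = (v i.castSucc).fst.snd := by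
      intro i
      apply hneg
      rw [← co4 (v i.succ) (v i.castSucc), hv' i]
      rfl
    have e4 : ∀ i : Fin (n + 2), (v i).fst.fst = 0 := by
      intro i
      refine Fin.cases ?_ (fun j => e1 j) i
      exact e2 0
    refine ⟨Fin.snoc (α := fun _ => RR A) (fun j : Fin (n + 2) =>
      mk4 (v j).snd.fst (v j).snd.snd 0 0) (mk4 (v (Fin.last (n + 1))).fst.snd 0 0 0), ?_⟩
    obtain ⟨w, hw⟩ : ∃ w : Fin (n + 3) → RR A, w = Fin.snoc (α := fun _ => RR A)
      (fun j : Fin (n + 2) => mk4 (v j).snd.fst (v j).snd.snd 0 0)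
      (mk4 (v (Fin.last (n + 1))).fst.snd 0 0 0) := ⟨_, rfl⟩
    rw [← hw]
    have hw1 : ∀ j : Fin (n + 2), w j.castSucc = mk4 (v j).snd.fst (v j).snd.snd 0 0 := by
      intro j
      rw [hw, Fin.snoc_castSucc]
    have hw2 : w (Fin.last (n + 2)) = mk4 (v (Fin.last (n + 1))).fst.snd 0 0 0 := by
      rw [hw, Fin.snoc_last]
    have hw3 : ∀ i : Fin (n + 2), (w i.succ).fst.fst = (v i).fst.snd ∧ (w i.succ).snd.fst = 0 := by
      intro i
      refine Fin.lastCases ?_ (fun j => ?_) i
      · rw [Fin.succ_last, hw2]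
        exact ⟨rfl, rfl⟩
      · rw [Fin.succ_castSucc, hw1]
        exact ⟨e3 j, rfl⟩
    funext i
    show eX A * w i.succ + eY A * w i.castSucc = v i
    refine ext4 ?_ ?_ ?_ ?_
    · rw [co1, e4 i]
    · rw [co2, (hw3 i).1]
    · rw [co3, hw1]
      rfl
    · rw [co4, (hw3 i).2, hw1, zero_add]
      rfl

theorem IA_res (A : Type) [CommRing A] (h2 : (2 : A) = 0) :
    ∃ π : (Fin 2 → RR A) →ₗ[RR A] ↥(IA A), Function.Surjective π ∧
      LinearMap.range (DD (eX A) (eY A) (RR A) 1) = LinearMap.ker π := by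
  refine ⟨{ toFun := fun p => ⟨eX A * p 1 + eY A * p 0,
              mem_IA A _ _⟩
            map_add' := ?_
            map_smul' := ?_ }, ?_, ?_⟩
  · intro p q
    apply Subtype.ext
    show eX A * (p 1 + q 1) + eY A * (p 0 + q 0) =
      (eX A * p 1 + eY A * p 0) + (eX A * q 1 + eY A * q 0)
    ring
  · intro r p
    apply Subtype.ext
    show eX A * (r * p 1) + eY A * (r * p 0) = r * (eX A * p 1 + eY A * p 0)
    ring
  · rintro ⟨z, hz⟩
    obtain ⟨a, b, hab⟩ := Ideal.mem_span_pair.1 hz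
    refine ⟨![b, a], ?_⟩
    apply Subtype.ext
    show eX A * a + eY A * b = z
    rw [← hab]
    ring
  · rw [DD_exact A h2 0]
    ext p
    rw [LinearMap.mem_ker, LinearMap.mem_ker]
    constructor
    · intro h
      apply Subtype.ext
      exact congrFun h 0
    · intro h
      refine funext (fun i : Fin 1 => ?_)
      have h' : eX A * p 1 + eY A * p 0 = 0 := congrArg Subtype.val h
      have hi : i = 0 := Subsingleton.elim _ _
      subst hi
      exact h'

theorem hasRes_IA (A : Type) [CommRing A] (h2 : (2 : A) = 0) :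
    HasRes (RR A) (RR A ⧸ IA A) (fun n => n + 1) := by
  refine ⟨fun i => DD (eX A) (eY A) (RR A) i,
    (Submodule.mkQ (IA A)).comp (LinearMap.proj 0), fun i => DD_exact A h2 i, ?_, ?_⟩
  · intro z
    obtain ⟨r, hr⟩ := Submodule.mkQ_surjective (IA A) z
    exact ⟨fun _ => r, hr⟩
  · ext p
    rw [LinearMap.mem_ker, LinearMap.mem_range]
    have hmem : ((Submodule.mkQ (IA A)).comp (LinearMap.proj 0)) p = 0 ↔ p 0 ∈ IA A := by
      rw [LinearMap.comp_apply, LinearMap.proj_apply, Submodule.mkQ_apply,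
        Submodule.Quotient.mk_eq_zero]
    rw [hmem]
    constructor
    · rintro ⟨y, rfl⟩
      show eX A * y 1 + eY A * y 0 ∈ IA A
      exact mem_IA A _ _
    · intro hz
      obtain ⟨a, b, hab⟩ := Ideal.mem_span_pair.1 hz
      refine ⟨![b, a], ?_⟩
      refine funext (fun i : Fin 1 => ?_)
      have hi : i = 0 := Subsingleton.elim _ _
      subst hi
      show eX A * a + eY A * b = p 0
      rw [← hab]
      ring

end Pool.Agent.R698.BU

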