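import Pool.Agent.R698.BU.Defs
import Pool.Agent.R688.BT.TorRes

set_option autoImplicit false

open CategoryTheory Limits

namespace Pool.Agent.R698.BU

namespace TorMapAx

open TensorProduct MonoidalCategory

/-- the identification of `N ⊗ R^k` with `N^k` -/
noncomputable def EE (R : Type) [CommRing R] (N : Type) [AddCommGroup N] [Module R N] (k : ℕ) :
    (N ⊗[R] (Fin k → R)) ≃ₗ[R] (Fin k → N) :=
  TensorProduct.piScalarRight R R N (Fin k)

lemma EE_tmul (R : Type) [CommRing R] (N : Type) [AddCommGroup N] [Module R N] (k : ℕ) (x : N)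
    (f : Fin k → R) : EE R N k (x ⊗ₜ f) = fun i => f i • x := by
  funext i
  simp [EE]

lemma EE_comm (R : Type) [CommRing R] (N : Type) [AddCommGroup N] [Module R N] {a b : ℕ}
    (D : (Fin a → R) →ₗ[R] (Fin b → R)) (t : N ⊗[R] (Fin a → R)) :
    EE R N b (LinearMap.lTensor N D t) = extN D N (EE R N a t) := by
  induction t using TensorProduct.induction_on with
  | zero => simp
  | add x y hx hy => rw [map_add, map_add, map_add, map_add, hx, hy]
  | tmul x f =>
    rw [LinearMap.lTensor_tmul, EE_tmul, EE_tmul]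
    funext i
    change D f i • x = ∑ j, D (Pi.single j 1) i • (f j • x)
    have h2 : f = ∑ j, f j • (Pi.single j 1 : Fin a → R) := by
      funext z
      rw [Finset.sum_apply]
      simp [Pi.single_apply]
    have h3 : D f i = ∑ j, f j * D (Pi.single j 1) i := by
      conv_lhs => rw [h2]
      rw [map_sum, Finset.sum_apply]
      refine Finset.sum_congr rfl fun j _ => ?_
      rw [map_smul, Pi.smul_apply, smul_eq_mul]
    rw [h3, Finset.sum_smul]
    refine Finset.sum_congr rfl fun j _ => ?_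
    rw [smul_smul, mul_comm]

lemma range_iCycles {R : Type} [CommRing R] (K : ChainComplex (ModuleCat.{0} R) ℕ) (n : ℕ) :
    LinearMap.range (K.iCycles (n + 1)).hom = LinearMap.ker (K.d (n + 1) n).hom := by
  apply le_antisymm
  · rintro _ ⟨x, rfl⟩
    have h1 : K.iCycles (n + 1) ≫ K.d (n + 1) n = 0 := K.iCycles_d (n + 1) n
    have h2 := congrArg (fun f => f.hom x) h1
    exact h2
  · intro x hx
    let k : ModuleCat.of R R ⟶ K.X (n + 1) := ModuleCat.ofHom (LinearMap.toSpanSingleton R _ x)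
    have hk : k ≫ K.d (n + 1) n = 0 := by
      apply ModuleCat.hom_ext
      apply LinearMap.ext_ring
      change (K.d (n + 1) n).hom ((1 : R) • x) = 0
      rw [one_smul]
      exact hx
    refine ⟨(K.liftCycles k n (by simp) hk).hom (1 : R), ?_⟩
    have h3 : K.liftCycles k n (by simp) hk ≫ K.iCycles (n + 1) = k := K.liftCycles_i _ _ _ _
    have h4 := congrArg (fun f => f.hom (1 : R)) h3
    refine Eq.trans h4 ?_
    change (1 : R) • x = x
    rw [one_smul]

/-- maps out of homology -/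
lemma hom_map {R : Type} [CommRing R] (K : ChainComplex (ModuleCat.{0} R) ℕ) (n : ℕ)
    (Q : ModuleCat.{0} R) (z : K.X (n + 1) ⟶ Q) (hz : K.d (n + 1 + 1) (n + 1) ≫ z = 0) :
    ∃ Ψ : K.homology (n + 1) ⟶ Q,
      LinearMap.range Ψ.hom = (LinearMap.ker (K.d (n + 1) n).hom).map z.hom := by
  refine ⟨K.homologyι (n + 1) ≫ K.descOpcycles z (n + 1 + 1) (by simp) hz, ?_⟩
  have h1 : K.homologyπ (n + 1) ≫ (K.homologyι (n + 1) ≫
      K.descOpcycles z (n + 1 + 1) (by simp) hz) = K.iCycles (n + 1) ≫ z := by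
    rw [← Category.assoc, K.homology_π_ι, Category.assoc, K.p_descOpcycles]
  have h2 : Function.Surjective (K.homologyπ (n + 1)).hom :=
    (ModuleCat.epi_iff_surjective _).1 inferInstance
  rw [← range_iCycles, ← LinearMap.range_comp]
  have h3 := congrArg (fun f => LinearMap.range f.hom) h1
  simp only [ModuleCat.hom_comp] at h3
  rw [← h3, LinearMap.range_comp_of_range_eq_top]
  · rfl
  · exact LinearMap.range_eq_top.2 h2

end TorMapAx

open TorMapAx in
/-- P1 -/
theorem tor_map (R : Type) [CommRing R] (h : ℕ → ℕ)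
    (D : ∀ i : ℕ, (Fin (h (i + 1)) → R) →ₗ[R] (Fin (h i) → R))
    (hex : ∀ i, LinearMap.range (D (i + 1)) = LinearMap.ker (D i))
    {M : Type} [AddCommGroup M] [Module R M] (π : (Fin (h 0) → R) →ₗ[R] M)
    (hπ : Function.Surjective π) (hker : LinearMap.range (D 0) = LinearMap.ker π)
    (N : Type) [AddCommGroup N] [Module R N] (n : ℕ)
    (Q : Type) [AddCommGroup Q] [Module R Q] (z : (Fin (h (n + 1)) → N) →ₗ[R] Q)
    (hz : z ∘ₗ (extN (D (n + 1)) N) = 0) :
    ∃ Ψ : (TorM R (n + 1) N M) →ₗ[R] Q,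
      LinearMap.range Ψ = (LinearMap.ker (extN (D n) N)).map z := by
  have e1 := (Pool.Agent.R688.BT.res h D hex π hπ hker).isoLeftDerivedObj
    ((MonoidalCategory.tensoringLeft (ModuleCat.{0} R)).obj (ModuleCat.of R N)) (n + 1)
  set K' := (((MonoidalCategory.tensoringLeft (ModuleCat.{0} R)).obj
    (ModuleCat.of R N)).mapHomologicalComplex (ComplexShape.down ℕ)).obj
      (Pool.Agent.R688.BT.Cx h D hex) with hK'
  have e2 : TorM R (n + 1) N M ≅ K'.homology (n + 1) := e1
  have hd : ∀ i, (K'.d (i + 1) i).hom = LinearMap.lTensor N (D i) := by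
    intro i
    change (MonoidalCategoryStruct.whiskerLeft (ModuleCat.of R N)
      ((Pool.Agent.R688.BT.Cx h D hex).d (i + 1) i)).hom = _
    rw [Pool.Agent.R688.BT.Cx_d]
    rfl
  let z' : K'.X (n + 1) ⟶ ModuleCat.of R Q :=
    ModuleCat.ofHom (z ∘ₗ (EE R N (h (n + 1))).toLinearMap)
  have hz' : K'.d (n + 1 + 1) (n + 1) ≫ z' = 0 := by
    apply ModuleCat.hom_ext
    rw [ModuleCat.hom_comp, hd]
    apply LinearMap.ext
    intro t
    have h5 := EE_comm R N (D (n + 1)) t
    exact (congrArg z h5).trans (LinearMap.congr_fun hz _)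
  obtain ⟨Ψ, hΨ⟩ := hom_map K' n (ModuleCat.of R Q) z' hz'
  refine ⟨Ψ.hom ∘ₗ e2.toLinearEquiv.toLinearMap, ?_⟩
  rw [LinearMap.range_comp_of_range_eq_top _ (LinearEquiv.range _), hΨ, hd]
  ext q
  constructor
  · rintro ⟨t, ht, rfl⟩
    refine ⟨EE R N (h (n + 1)) t, ?_, rfl⟩
    have ht' : LinearMap.lTensor N (D n) t = 0 := ht
    have h5 := EE_comm R N (D n) t
    exact h5.symm.trans ((congrArg (EE R N (h n)) ht').trans (map_zero _))
  · rintro ⟨v, hv, rfl⟩
    refine ⟨(EE R N (h (n + 1))).symm v, ?_, ?_⟩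
    · have hv' : extN (D n) N v = 0 := hv
      change LinearMap.lTensor N (D n) ((EE R N (h (n + 1))).symm v) = 0
      apply (EE R N (h n)).injective
      rw [EE_comm, LinearEquiv.apply_symm_apply, hv', map_zero]
    · change z (EE R N (h (n + 1)) ((EE R N (h (n + 1))).symm v)) = z v
      rw [LinearEquiv.apply_symm_apply]

end Pool.Agent.R698.BU
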