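import Mathlib
import Pool.Agent.R698.BU.TorMap
import Pool.Agent.R698.BU.Func
import Pool.Agent.R698.BU.ResL
import Pool.Agent.R698.BU.Cyc
import Pool.Agent.R698.BU.Cnt

set_option autoImplicit false

open CategoryTheory

namespace Pool.Agent.R698.BU

open IsLocalRing

namespace Lw

/-- `r ↦ r.fst.fst` -/
def pr (A : Type) [CommRing A] : RR A →+* A where
  toFun r := r.fst.fst
  map_one' := rfl
  map_mul' r s := by simp only [TrivSqZeroExt.fst_mul]
  map_zero' := rfl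
  map_add' r s := by simp only [TrivSqZeroExt.fst_add]

/-- `F[[t₂]]` as a module over `RR A` -/
def QM {A : Type} [CommRing A] (_ : A →+* LL) : Type := PowerSeries FF

variable {A : Type} [CommRing A] (φ : A →+* LL)

noncomputable instance : AddCommGroup (QM φ) := inferInstanceAs (AddCommGroup (PowerSeries FF))

noncomputable instance : Module (RR A) (QM φ) :=
  Module.compHom (PowerSeries FF) ((ev.comp φ).comp (pr A))

theorem smul_QM (r : RR A) (q : QM φ) :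
    r • q = (show PowerSeries FF from (ev (φ r.fst.fst) : PowerSeries FF) *
      (show PowerSeries FF from q)) := rfl

/-- the map `r ↦ ev (φ (Y-coordinate))` on `JJ φ` -/
noncomputable def zz : ↥(JJ φ) →ₗ[RR A] QM φ where
  toFun r := (ev (φ (r : RR A).snd.fst) : PowerSeries FF)
  map_add' r s := by
    show (ev (φ ((r + s : ↥(JJ φ)) : RR A).snd.fst) : PowerSeries FF) =
      ev (φ (r : RR A).snd.fst) + ev (φ (s : RR A).snd.fst)
    simp only [Submodule.coe_add, TrivSqZeroExt.snd_add, TrivSqZeroExt.fst_add, map_add]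
  map_smul' c r := by
    have h1 : (r : RR A).fst.fst = 0 := r.2.1
    show (ev (φ ((c • r : ↥(JJ φ)) : RR A).snd.fst) : PowerSeries FF) =
      ev (φ c.fst.fst) * ev (φ (r : RR A).snd.fst)
    have h2 : ((c • r : ↥(JJ φ)) : RR A).snd.fst = c.fst.fst * (r : RR A).snd.fst := by
      rw [Submodule.coe_smul, smul_eq_mul]
      simp only [TrivSqZeroExt.snd_mul, TrivSqZeroExt.fst_add, TrivSqZeroExt.fst_mul,
        smul_eq_mul, MulOpposite.smul_eq_mul_unop, MulOpposite.unop_op, h1, mul_zero, add_zero]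
      try ring
    rw [h2, map_mul, map_mul]

theorem eX_mul_sf (r : RR A) : (eX A * r).snd.fst = 0 := by
  simp [eX, TrivSqZeroExt.snd_mul]

theorem eY_mul_sf (r : RR A) : (eY A * r).snd.fst = r.fst.fst := by
  simp [eY, TrivSqZeroExt.snd_mul]

theorem ev_T2 : ev T2 = (PowerSeries.X : PowerSeries FF) := by
  simp [ev, T2]

theorem ev_T1 : ev T1 = 0 := by
  simp [ev, T1]

theorem ev_cc (c : FF) : ev (cc c) = (PowerSeries.C c : PowerSeries FF) := by
  simp [ev, cc]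

/-- the underlying power series -/
noncomputable def toP : QM φ →+ PowerSeries FF := AddMonoidHom.id (PowerSeries FF)

theorem toP_smul (r : RR A) (q : QM φ) : toP φ (r • q) = ev (φ r.fst.fst) * toP φ q := rfl

theorem toP_zz (r : ↥(JJ φ)) : toP φ (zz φ r) = ev (φ (r : RR A).snd.fst) := rfl

theorem zz_bd (a b : ↥(JJ φ)) : zz φ (eX A • a + eY A • b) = 0 := by
  have h1 : (b : RR A).fst.fst = 0 := b.2.1
  show (ev (φ ((eX A • a + eY A • b : ↥(JJ φ)) : RR A).snd.fst) : PowerSeries FF) = 0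
  have h2 : ((eX A • a + eY A • b : ↥(JJ φ)) : RR A).snd.fst = 0 := by
    have : ((eX A • a + eY A • b : ↥(JJ φ)) : RR A) = eX A * (a : RR A) + eY A * (b : RR A) := rfl
    rw [this, TrivSqZeroExt.snd_add, TrivSqZeroExt.fst_add, eX_mul_sf, eY_mul_sf, h1, add_zero]
  rw [h2, map_zero, map_zero]

theorem cyc_of {n : ℕ} (w : Fin (n + 3) → ↥(JJ φ))
    (hw : DD (eX A) (eY A) ↥(JJ φ) (n + 1) w = 0) (i : Fin (n + 2)) :
    eX A * (w i.succ : RR A) + eY A * (w i.castSucc : RR A) = 0 := by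
  have := congrFun hw i
  have h2 : ((DD (eX A) (eY A) ↥(JJ φ) (n + 1) w i : ↥(JJ φ)) : RR A) = 0 := by rw [this]; rfl
  exact h2

theorem of_cyc {n : ℕ} (w : Fin (n + 3) → ↥(JJ φ))
    (hw : ∀ i : Fin (n + 2), eX A * (w i.succ : RR A) + eY A * (w i.castSucc : RR A) = 0) :
    DD (eX A) (eY A) ↥(JJ φ) (n + 1) w = 0 := by
  funext i
  apply Subtype.ext
  exact hw i

theorem hrho [IsLocalRing A] (v : Fin 6 → A)
    (hm : maximalIdeal A = Ideal.span (Set.range v))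
    (hφ : ∀ i : Fin 3, φ (v (Fin.castAdd 3 i)) = cc (sv i) * T2 ∧
      φ (v (Fin.natAdd 3 i)) = cc (sv i) * T1) (a : A) (ha : a ∈ maximalIdeal A) :
    PowerSeries.coeff 0 ((ev.comp φ) a) = 0 := by
  have h1 : maximalIdeal A ≤ RingHom.ker
      ((PowerSeries.constantCoeff (R := FF)).comp (ev.comp φ)) := by
    rw [hm, Ideal.span_le]
    rintro _ ⟨i, rfl⟩
    rw [SetLike.mem_coe, RingHom.mem_ker]
    refine Fin.addCases (m := 3) (n := 3) (fun i => ?_) (fun i => ?_) i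
    · rw [RingHom.comp_apply, RingHom.comp_apply, (hφ i).1, map_mul, ev_T2]
      simp
    · rw [RingHom.comp_apply, RingHom.comp_apply, (hφ i).2, map_mul, ev_T1]
      simp
  have h2 := h1 ha
  rw [RingHom.mem_ker] at h2
  rw [PowerSeries.coeff_zero_eq_constantCoeff]
  exact h2

theorem mem_max [IsLocalRing A] [IsLocalRing (RR A)] {a : A} (ha : a ∈ maximalIdeal A) :
    ofA A a ∈ maximalIdeal (RR A) := by
  rw [mem_maximalIdeal]
  intro h
  have h1 : IsUnit (pr A (ofA A a)) := h.map (pr A)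
  exact (mem_maximalIdeal a).mp ha h1

theorem core [IsLocalRing A] [IsLocalRing (RR A)] (v : Fin 6 → A)
    (hm : maximalIdeal A = Ideal.span (Set.range v))
    (hφ : ∀ i : Fin 3, φ (v (Fin.castAdd 3 i)) = cc (sv i) * T2 ∧
      φ (v (Fin.natAdd 3 i)) = cc (sv i) * T1)
    (L : ℕ) (b : Fin L → A) (hb : ∀ a : A, ∃ S : Finset (Fin L),
      a - ∑ i ∈ S, b i ∈ maximalIdeal A ^ 3) (N : ℕ)
    {S T : Type} [AddCommGroup S] [Module (RR A) S] [AddCommGroup T] [Module (RR A) T]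
    (Ψ : T →ₗ[RR A] QM φ) (Θ : S →ₗ[RR A] T)
    (hord : ∀ w, ∀ j < N, PowerSeries.coeff j (toP φ (Ψ w)) = 0)
    (hex : ∀ c d, c + d ≤ N → ∃ w, toP φ (Ψ w) =
      PowerSeries.C (sv 1 ^ c * sv 2 ^ d) * PowerSeries.X ^ N)
    (hΘ : ∀ r ∈ maximalIdeal (RR A), ∀ r' ∈ maximalIdeal (RR A), ∀ w,
      (r * r') • w ∈ LinearMap.range Θ)
    (s : Finset S) (hs : Submodule.span (RR A) (s : Set S) = ⊤) :
    (N / 2 + 1) ^ 2 ≤ L * s.card := by
  let e := s.equivFin
  have hv0 : v 0 ∈ maximalIdeal A := by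
    rw [hm]; exact Ideal.subset_span ⟨0, rfl⟩
  have hφ0 : ev (φ (v 0)) = (PowerSeries.X : PowerSeries FF) := by
    have h := (hφ 0).1
    have h0 : (Fin.castAdd 3 (0 : Fin 3)) = (0 : Fin 6) := rfl
    rw [h0] at h
    rw [h, map_mul, ev_T2, ev_cc]
    have : sv 0 = 1 := rfl
    rw [this, map_one, one_mul]
  refine count A (ev.comp φ) (hrho φ v hm hφ) L b hb N s.card
    (fun i => toP φ (Ψ (Θ (e.symm i).1))) (fun i j hj => hord _ j hj) ?_
  intro c d hcd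
  obtain ⟨w, hw⟩ := hex c d hcd
  obtain ⟨t, ht⟩ := hΘ (ofA A (v 0)) (mem_max hv0) (ofA A (v 0)) (mem_max hv0) w
  have htop : t ∈ Submodule.span (RR A) (s : Set S) := by
    rw [hs]; exact Submodule.mem_top
  obtain ⟨f, hf⟩ := Submodule.mem_span_finset'.mp htop
  refine ⟨fun i => (f (e.symm i)).fst.fst, ?_⟩
  have hsum : ∑ i, (ev.comp φ) ((f (e.symm i)).fst.fst) * toP φ (Ψ (Θ (e.symm i).1)) =
      toP φ (Ψ (Θ t)) := by
    rw [← hf, map_sum, map_sum, map_sum]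
    rw [← Equiv.sum_comp e.symm]
    refine Finset.sum_congr rfl fun i _ => ?_
    rw [map_smul, map_smul, toP_smul]
    rfl
  rw [hsum, ht, map_smul, toP_smul, hw]
  have h3 : (ofA A (v 0) * ofA A (v 0) : RR A).fst.fst = v 0 * v 0 := by
    simp only [ofA, TrivSqZeroExt.fst_mul, TrivSqZeroExt.fst_inl]
  rw [h3, map_mul, map_mul, hφ0]
  ring

end Lw

open Lw

theorem lower (A : Type) [CommRing A] [IsNoetherianRing A] [IsLocalRing A]
    [IsLocalRing (RR A)] (v : Fin 6 → A) (φ : A →+* LL) (h2 : (2 : A) = 0)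
    (hm : maximalIdeal A = Ideal.span (Set.range v))
    (hφ : ∀ i : Fin 3, φ (v (Fin.castAdd 3 i)) = cc (sv i) * T2 ∧
      φ (v (Fin.natAdd 3 i)) = cc (sv i) * T1)
    (L : ℕ) (b : Fin L → A) (hb : ∀ a : A, ∃ S : Finset (Fin L),
      a - ∑ i ∈ S, b i ∈ maximalIdeal A ^ 3)
    (n : ℕ) (s : Finset (TorM (RR A) (n + 1) ↥(maximalIdeal (RR A) * JJ φ)
      ↥(maximalIdeal (RR A) * IA A))) (hs : Submodule.span (RR A) (↑s : Set (TorM (RR A) (n + 1) ↥(maximalIdeal (RR A) * JJ φ)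
      ↥(maximalIdeal (RR A) * IA A))) = ⊤) :
    ((n + 3) / 2 + 1) ^ 2 ≤ L * s.card := by
  obtain ⟨π, hπ, hker⟩ := IA_res A h2
  obtain ⟨Ψ, hΨ⟩ := tor_map (RR A) (fun j => j + 2)
    (fun j => DD (eX A) (eY A) (RR A) (j + 1)) (fun i => DD_exact A h2 (i + 1)) π hπ hker
    ↥(JJ φ) n (QM φ) ((zz φ) ∘ₗ (LinearMap.proj (0 : Fin (n + 3)))) (by
      show (zz φ ∘ₗ LinearMap.proj 0) ∘ₗ (extN (DD (eX A) (eY A) (RR A) (n + 1 + 1)) ↥(JJ φ)) = 0
      rw [extN_DD]
      apply LinearMap.ext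
      intro w
      exact zz_bd φ _ _)
  have hΨ' : LinearMap.range Ψ = (LinearMap.ker (DD (eX A) (eY A) ↥(JJ φ) (n + 1))).map
      ((zz φ) ∘ₗ (LinearMap.proj (0 : Fin (n + 3)))) := by
    rw [hΨ]
    show (LinearMap.ker (extN (DD (eX A) (eY A) (RR A) (n + 1)) ↥(JJ φ))).map _ = _
    rw [extN_DD]
  clear hΨ
  obtain ⟨Θ, hΘ⟩ := tor_func (RR A) (maximalIdeal (RR A)) (IA A) (JJ φ) (n + 1)
  have hord : ∀ w, ∀ j < n + 3, PowerSeries.coeff j (toP φ (Ψ w)) = 0 := by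
    intro w j hj
    have hw : Ψ w ∈ LinearMap.range Ψ := ⟨w, rfl⟩
    rw [hΨ'] at hw
    obtain ⟨c, hc, hcw⟩ := hw
    rw [← hcw]
    exact cyc_order A h2 φ (n + 1) (fun i => (c i : RR A)) (fun i => (c i).2)
      (cyc_of φ c (LinearMap.mem_ker.mp hc)) j hj
  have hex : ∀ c d, c + d ≤ n + 3 → ∃ w, toP φ (Ψ w) =
      PowerSeries.C (sv 1 ^ c * sv 2 ^ d) * PowerSeries.X ^ (n + 3) := by
    intro c d hcd
    obtain ⟨v', hv'J, hv'c, hv'e⟩ := cyc_exists A h2 φ v hφ (n + 1) c d hcd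
    have hmem : (zz φ ⟨v' 0, hv'J 0⟩) ∈ LinearMap.range Ψ := by
      rw [hΨ']
      exact ⟨fun i => ⟨v' i, hv'J i⟩, LinearMap.mem_ker.mpr (of_cyc φ _ hv'c), rfl⟩
    obtain ⟨w, hw⟩ := hmem
    exact ⟨w, by rw [hw]; exact hv'e⟩
  exact core φ v hm hφ L b hb (n + 3) Ψ Θ hord hex hΘ s hs

end Pool.Agent.R698.BU
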