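import Pool.Agent.R698.BU.Defs

set_option autoImplicit false

namespace Pool.Agent.R698.BU

open IsLocalRing

theorem rring_local (B : Type) [CommRing B] [IsLocalRing B] : IsLocalRing (DualNumber B) := by
  refine IsLocalRing.of_isUnit_or_isUnit_one_sub_self ?_
  intro a
  rcases IsLocalRing.isUnit_or_isUnit_one_sub_self a.fst with h | h
  · exact Or.inl (TrivSqZeroExt.isUnit_iff_isUnit_fst.2 h)
  · refine Or.inr (TrivSqZeroExt.isUnit_iff_isUnit_fst.2 ?_)
    simpa using h

/-- P12a (file RRing.lean) -/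
theorem isLocalRing_RR (A : Type) [CommRing A] [IsLocalRing A] : IsLocalRing (RR A) := by
  haveI := rring_local A
  exact rring_local (DualNumber A)

theorem rring_noeth (B : Type) [CommRing B] [IsNoetherianRing B] :
    IsNoetherianRing (DualNumber B) := by
  haveI : Module.Finite B (DualNumber B) := inferInstanceAs (Module.Finite B (B × B))
  exact IsNoetherianRing.of_finite B (DualNumber B)

/-- P12b (file RRing.lean) -/
theorem isNoetherianRing_RR (A : Type) [CommRing A] [IsNoetherianRing A] :
    IsNoetherianRing (RR A) := by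
  haveI := rring_noeth A
  exact rring_noeth (DualNumber A)

/-- P12c (file RRing.lean) -/
theorem mem_max_RR (A : Type) [CommRing A] [IsLocalRing A] [IsLocalRing (RR A)] (r : RR A) :
    r ∈ maximalIdeal (RR A) ↔ r.fst.fst ∈ maximalIdeal A := by
  rw [IsLocalRing.mem_maximalIdeal, IsLocalRing.mem_maximalIdeal, mem_nonunits_iff,
    mem_nonunits_iff, TrivSqZeroExt.isUnit_iff_isUnit_fst, TrivSqZeroExt.isUnit_iff_isUnit_fst]

/-- P12d (file RRing.lean) -/
theorem mem_IA (A : Type) [CommRing A] (r : RR A) : r ∈ IA A ↔ r.fst.fst = 0 := by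
  unfold IA
  rw [Ideal.mem_span_pair]
  constructor
  · rintro ⟨a, b, rfl⟩
    simp [eX, eY]
  · intro h
    refine ⟨TrivSqZeroExt.inl (TrivSqZeroExt.inl r.fst.snd), TrivSqZeroExt.inl r.snd, ?_⟩
    ext
    · simp [eX, eY, h]
    · simp [eX, eY]
    · simp [eX, eY]
    · simp [eX, eY]

end Pool.Agent.R698.BU
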