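import Mathlib
import Pool.Agent.R698.BU.Defs
import Pool.Agent.R688.BT.TorRes

set_option autoImplicit false

open CategoryTheory

namespace Pool.Agent.R698.BU

open IsLocalRing TensorProduct MonoidalCategory

/-- a module of length at most `n` is generated by at most `n` elements -/
theorem TorUp.gen_of_length (R : Type) [CommRing R] : ∀ (n : ℕ) (X : Type) [AddCommGroup X]
    [Module R X], Module.length R X ≤ (n : ℕ∞) →
    ∃ s : Finset X, s.card ≤ n ∧ Submodule.span R (s : Set X) = ⊤ := by
  intro n
  induction n with
  | zero =>
    intro X _ _ hX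
    have h0 : Module.length R X = 0 := le_antisymm (by simpa using hX) bot_le
    rw [Module.length_eq_zero_iff] at h0
    exact ⟨∅, by simp, Subsingleton.elim _ _⟩
  | succ n ih =>
    intro X _ _ hX
    classical
    by_cases hs : Subsingleton X
    · exact ⟨∅, by simp, Subsingleton.elim _ _⟩
    · rw [not_subsingleton_iff_nontrivial] at hs
      obtain ⟨x, hx⟩ := exists_ne (0 : X)
      have hlen := Module.length_eq_add_of_exact (Submodule.span R {x}).subtype
        (Submodule.span R {x}).mkQ (Submodule.injective_subtype _) (Submodule.mkQ_surjective _)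
        (by
          rw [LinearMap.exact_iff, Submodule.ker_mkQ, Submodule.range_subtype])
      have h1 : 1 ≤ Module.length R (Submodule.span R {x}) := by
        rw [Order.one_le_iff_ne_zero]
        intro h0
        rw [Module.length_eq_zero_iff] at h0
        apply hx
        have := Subsingleton.elim (⟨x, Submodule.mem_span_singleton_self x⟩ :
          Submodule.span R {x}) 0
        simpa using this
      have h2 : Module.length R (X ⧸ Submodule.span R {x}) ≤ (n : ℕ∞) := by
        have h3 : 1 + Module.length R (X ⧸ Submodule.span R {x}) ≤ 1 + (n : ℕ∞) := by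
          calc 1 + Module.length R (X ⧸ Submodule.span R {x}) ≤
              Module.length R (Submodule.span R {x}) +
                Module.length R (X ⧸ Submodule.span R {x}) := by gcongr
            _ = Module.length R X := hlen.symm
            _ ≤ ((n + 1 : ℕ) : ℕ∞) := hX
            _ = 1 + (n : ℕ∞) := by push_cast; ring
        exact (ENat.add_le_add_iff_left (by simp)).1 h3
      obtain ⟨s, hs1, hs2⟩ := ih _ h2
      choose g hg using Submodule.mkQ_surjective (Submodule.span R {x})
      refine ⟨insert x (s.image g), ?_, ?_⟩
      · exact (Finset.card_insert_le _ _).trans (by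
          have := Finset.card_image_le (s := s) (f := g)
          omega)
      · rw [eq_top_iff]
        intro y _
        have hy : (Submodule.span R {x}).mkQ y ∈
            Submodule.span R (s : Set (X ⧸ Submodule.span R {x})) := by
          rw [hs2]; trivial
        have h4 : (s : Set (X ⧸ Submodule.span R {x})) =
            (Submodule.span R {x}).mkQ '' (g '' (s : Set _)) := by
          rw [← Set.image_comp]
          ext z
          simp [hg]
        rw [h4, Submodule.span_image] at hy
        obtain ⟨z, hz, hzy⟩ := hy
        have h5 : y - z ∈ Submodule.span R {x} := by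
          rw [← Submodule.ker_mkQ (Submodule.span R {x}), LinearMap.mem_ker, map_sub, hzy,
            sub_self]
        have h6 : y = (y - z) + z := by abel
        rw [h6]
        refine Submodule.add_mem _ (Submodule.span_mono (by simp) h5)
          (Submodule.span_mono ?_ hz)
        simp

theorem TorUp.mu_le (R : Type) [CommRing R] (n : ℕ) (X : Type) [AddCommGroup X]
    [Module R X] (hX : Module.length R X ≤ (n : ℕ∞)) : mu R X ≤ (n : ℕ∞) := by
  obtain ⟨s, hs1, hs2⟩ := TorUp.gen_of_length R n X hX
  unfold mu
  refine (iInf₂_le s hs2).trans ?_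
  exact_mod_cast hs1

theorem TorUp.length_tensor (R : Type) [CommRing R] [IsLocalRing R] (n : ℕ) :
    Module.length R ((R ⧸ maximalIdeal R) ⊗[R] (Fin n → R)) = n := by
  have e1 := TensorProduct.piScalarRight R R (R ⧸ maximalIdeal R) (Fin n)
  rw [e1.length_eq, Module.length_pi, ENat.card_eq_coe_fintype_card, Fintype.card_fin]
  have : IsSimpleModule R (R ⧸ maximalIdeal R) :=
    isSimpleModule_iff_isCoatom.2 (Ideal.isMaximal_def.1 inferInstance)
  rw [Module.length_eq_one, mul_one]

/-- P2 (file TorUp.lean) -/
theorem tor_up (R : Type) [CommRing R] [IsLocalRing R] (h : ℕ → ℕ)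
    (M : Type) [AddCommGroup M] [Module R M] (H : HasRes R M h) (n : ℕ) :
    mu R (TorM R (n + 1) (R ⧸ maximalIdeal R) M) ≤ (h (n + 1) : ℕ∞) := by
  obtain ⟨D, π, hex, hπ, hker⟩ := H
  apply TorUp.mu_le
  have e1 := (Pool.Agent.R688.BT.res h D hex π hπ hker).isoLeftDerivedObj
    ((tensoringLeft (ModuleCat.{0} R)).obj (ModuleCat.of R (R ⧸ maximalIdeal R))) (n + 1)
  have e2 := e1.toLinearEquiv.length_eq
  refine (le_of_eq (e2 : _ = _)).trans ?_
  set K' := (((tensoringLeft (ModuleCat.{0} R)).obj
    (ModuleCat.of R (R ⧸ maximalIdeal R))).mapHomologicalComplex (ComplexShape.down ℕ)).obj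
      (Pool.Agent.R688.BT.Cx h D hex) with hK'
  change Module.length R (K'.homology (n + 1)) ≤ _
  have h1 : Module.length R (K'.homology (n + 1)) ≤ Module.length R (K'.cycles (n + 1)) :=
    Module.length_le_of_surjective (K'.homologyπ (n + 1)).hom
      ((ModuleCat.epi_iff_surjective _).1 inferInstance)
  have h2 : Module.length R (K'.cycles (n + 1)) ≤ Module.length R (K'.X (n + 1)) :=
    Module.length_le_of_injective (K'.iCycles (n + 1)).hom
      ((ModuleCat.mono_iff_injective _).1 inferInstance)
  refine (h1.trans h2).trans ?_
  change Module.length R ((R ⧸ maximalIdeal R) ⊗[R] (Fin (h (n + 1)) → R)) ≤ _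
  rw [TorUp.length_tensor]

end Pool.Agent.R698.BU
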