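import Mathlib
import Pool.Agent.R698.BU.Alg
import Pool.Agent.R698.BU.Burch
import Pool.Agent.R698.BU.RRing
import Pool.Agent.R698.BU.Cone
import Pool.Agent.R698.BU.Growth
import Pool.Agent.R698.BU.H3
import Pool.Agent.R698.BU.Kos
import Pool.Agent.R698.BU.TorUp
import Pool.Agent.R698.BU.LowF

set_option autoImplicit false

open CategoryTheory

namespace Pool.Agent.R698.BU

open IsLocalRing

theorem mu_attained (R : Type) [CommRing R] (X : Type) [AddCommGroup X] [Module R X] (u : ℕ)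
    (h : mu R X = (u : ℕ∞)) :
    ∃ s : Finset X, Submodule.span R (s : Set X) = ⊤ ∧ s.card = u := by
  by_contra hcon
  push Not at hcon
  have h1 : ((u : ℕ∞) + 1) ≤ mu R X ∨ (∃ s : Finset X, Submodule.span R (s : Set X) = ⊤ ∧
      s.card < u) := by
    by_cases hs : ∃ s : Finset X, Submodule.span R (s : Set X) = ⊤ ∧ s.card < u
    · exact Or.inr hs
    · left
      push Not at hs
      refine le_iInf fun s => le_iInf fun hspan => ?_
      have h2 := hs s hspan
      have h3 := hcon s hspan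
      have h4 : u + 1 ≤ s.card := by omega
      exact_mod_cast h4
  rcases h1 with h1 | ⟨s, hs, hlt⟩
  · rw [h] at h1
    have h2 : u + 1 ≤ u := by exact_mod_cast h1
    omega
  · have h2 : mu R X ≤ (s.card : ℕ∞) := iInf_le_of_le s (iInf_le _ hs)
    rw [h] at h2
    have h3 : u ≤ s.card := by exact_mod_cast h2
    omega

theorem T2_ne : T2 ≠ 0 := PowerSeries.X_ne_zero

section coords
variable (A : Type) [CommRing A]
theorem eX_ff : (eX A).fst.fst = 0 := rfl
theorem eX_fs : (eX A).fst.snd = 1 := rfl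
theorem eX_sf : (eX A).snd.fst = 0 := rfl
theorem eX_ss : (eX A).snd.snd = 0 := rfl
theorem eY_ff : (eY A).fst.fst = 0 := rfl
theorem eY_fs : (eY A).fst.snd = 0 := rfl
theorem eY_sf : (eY A).snd.fst = 1 := rfl
theorem eY_ss : (eY A).snd.snd = 0 := rfl
variable {A}
theorem mul_ff (r s : RR A) : (r * s).fst.fst = r.fst.fst * s.fst.fst := by
  simp
theorem mul_fs (r s : RR A) : (r * s).fst.snd = r.fst.fst * s.fst.snd + r.fst.snd * s.fst.fst := by
  simp [mul_comm]
theorem mul_sf (r s : RR A) : (r * s).snd.fst = r.fst.fst * s.snd.fst + r.snd.fst * s.fst.fst := by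
  simp [mul_comm]
theorem mul_ss (r s : RR A) : (r * s).snd.snd = r.fst.fst * s.snd.snd + r.fst.snd * s.snd.fst +
    r.snd.fst * s.fst.snd + r.snd.snd * s.fst.fst := by
  simp
  ring
end coords

theorem final : ∃ (A : Type) (_ : CommRing A) (_ : IsNoetherianRing A) (_ : IsLocalRing A)
    (R : Type) (_ : CommRing R) (_ : IsNoetherianRing R) (_ : IsLocalRing R) (I J : Ideal R),
    (∃ v : Fin 6 → A, maximalIdeal A = Ideal.span (Set.range v) ∧
      ∀ (j : Fin 6) (a : A), v j * a ∈ Ideal.span (v '' {l | l < j}) →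
        a ∈ Ideal.span (v '' {l | l < j})) ∧
    Nonempty (R ≃+* DualNumber (DualNumber A)) ∧
    IsBurch I ∧ IsBurch J ∧
    tcx R (R ⧸ maximalIdeal R) (R ⧸ maximalIdeal R) ≤ 2 ∧
    3 ≤ tcx R I J := by
  obtain ⟨A, i1, i2, i3, v, φ, h2, hm, hreg, hres, hφ⟩ := exists_A
  have := i2
  have := i3
  have j2 : IsNoetherianRing (RR A) := isNoetherianRing_RR A
  have j3 : IsLocalRing (RR A) := isLocalRing_RR A
  obtain ⟨L, b, hb⟩ := exists_fin_reps A v hm hres
  obtain ⟨h, hH, hh⟩ := hasRes_k A v hm hreg (hasRes_IA A h2) (fun I h H x hx => H.cone x hx)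
  have hv0 : v 0 ≠ 0 := by
    intro h0
    have h1 := (hφ 0).1
    have h3 : (Fin.castAdd 3 (0 : Fin 3) : Fin 6) = 0 := rfl
    rw [h3, h0, map_zero] at h1
    have h4 : cc (sv 0) = 1 := by
      simp [cc, sv]
    rw [h4, one_mul] at h1
    exact T2_ne h1.symm
  have hv0m : ofA A (v 0) ∈ maximalIdeal (RR A) := by
    rw [mem_max_RR]
    change v 0 ∈ maximalIdeal A
    rw [hm]
    exact Ideal.subset_span ⟨0, rfl⟩
  have hxy : (eX A * eY A : RR A).snd.snd = 1 := by
    rw [mul_ss, eX_ff, eX_fs, eX_sf, eX_ss, eY_sf, eY_ss, eY_ff, eY_fs]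
    ring
  have hne : ofA A (v 0) * (eX A * eY A) ≠ 0 := by
    intro h0
    have h1 : (ofA A (v 0) * (eX A * eY A) : RR A).snd.snd = 0 := by rw [h0]; rfl
    have h3 : (ofA A (v 0) * (eX A * eY A) : RR A).snd.snd = v 0 := by
      rw [mul_ss, hxy]
      have e1 : (ofA A (v 0)).fst.fst = v 0 := rfl
      have e2 : (ofA A (v 0)).fst.snd = 0 := rfl
      have e3 : (ofA A (v 0)).snd.fst = 0 := rfl
      have e4 : (ofA A (v 0)).snd.snd = 0 := rfl
      rw [e1, e2, e3, e4]
      ring
    exact hv0 (h3.symm.trans h1)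
  refine ⟨A, i1, i2, i3, RR A, inferInstance, j2, j3, maximalIdeal (RR A) * JJ φ,
    maximalIdeal (RR A) * IA A, ⟨v, hm, hreg⟩, ⟨RingEquiv.refl _⟩, ?_, ?_, ?_, ?_⟩
  · apply isBurch_mul
    intro h0
    apply hne
    have h1 : ofA A (v 0) * (eX A * eY A) ∈ maximalIdeal (RR A) * JJ φ := by
      apply Ideal.mul_mem_mul hv0m
      refine ⟨?_, ?_⟩
      · rw [mul_ff, eX_ff, zero_mul]
      · rw [mul_fs, mul_sf, eX_ff, eX_fs, eX_sf, eY_ff]
        simp
    rw [h0] at h1
    exact h1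
  · apply isBurch_mul
    intro h0
    apply hne
    have h1 : ofA A (v 0) * (eX A * eY A) ∈ maximalIdeal (RR A) * IA A := by
      apply Ideal.mul_mem_mul hv0m
      exact (IA A).mul_mem_left _ (Ideal.subset_span (by simp))
    rw [h0] at h1
    exact h1
  · apply cplx_upper _ 64
    intro n
    refine (tor_up (RR A) h (RR A ⧸ maximalIdeal (RR A)) hH n).trans ?_
    have h1 := hh (n + 1)
    exact_mod_cast h1
  · apply cplx_lower _ L
    intro n u hu
    obtain ⟨s, hs, rfl⟩ := mu_attained _ _ u hu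
    have h1 := lower A v φ h2 hm hφ L b hb n s hs
    refine le_trans ?_ h1
    have h3 : (n + 2) / 2 ≤ (n + 3) / 2 := Nat.div_le_div_right (by omega)
    exact Nat.pow_le_pow_left (by omega) 2

end Pool.Agent.R698.BU
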