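import Mathlib
import Pool.Agent.R698.BU.Defs

set_option autoImplicit false

open CategoryTheory

namespace Pool.Agent.R698.BU

open IsLocalRing

/-- P1 (file TorMap.lean) -/
theorem tor_map (R : Type) [CommRing R] (h : ℕ → ℕ)
    (D : ∀ i : ℕ, (Fin (h (i + 1)) → R) →ₗ[R] (Fin (h i) → R))
    (hex : ∀ i, LinearMap.range (D (i + 1)) = LinearMap.ker (D i))
    {M : Type} [AddCommGroup M] [Module R M] (π : (Fin (h 0) → R) →ₗ[R] M)
    (hπ : Function.Surjective π) (hker : LinearMap.range (D 0) = LinearMap.ker π)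
    (N : Type) [AddCommGroup N] [Module R N] (n : ℕ)
    (Q : Type) [AddCommGroup Q] [Module R Q] (z : (Fin (h (n + 1)) → N) →ₗ[R] Q)
    (hz : z ∘ₗ (extN (D (n + 1)) N) = 0) :
    ∃ Ψ : (TorM R (n + 1) N M) →ₗ[R] Q,
      LinearMap.range Ψ = (LinearMap.ker (extN (D n) N)).map z := by
  sorry

/-- P2 (file TorUp.lean) -/
theorem tor_up (R : Type) [CommRing R] [IsLocalRing R] (h : ℕ → ℕ)
    (M : Type) [AddCommGroup M] [Module R M] (H : HasRes R M h) (n : ℕ) :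
    mu R (TorM R (n + 1) (R ⧸ maximalIdeal R) M) ≤ (h (n + 1) : ℕ∞) := by
  sorry

/-- P3 (file Func.lean) -/
theorem tor_func (R : Type) [CommRing R] (m a b : Ideal R) (n : ℕ) :
    ∃ Θ : (TorM R n ↥(m * b) ↥(m * a)) →ₗ[R] (TorM R n ↥b ↥a),
      ∀ r ∈ m, ∀ r' ∈ m, ∀ w, (r * r') • w ∈ LinearMap.range Θ := by
  sorry

/-- P4a (file ResL.lean) -/
theorem extN_DD (R : Type) [CommRing R] (X Y : R) (n : ℕ) (N : Type) [AddCommGroup N]
    [Module R N] : extN (DD X Y R n) N = DD X Y N n := by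
  sorry

/-- P4b (file ResL.lean) -/
theorem DD_exact (A : Type) [CommRing A] (h2 : (2 : A) = 0) (n : ℕ) :
    LinearMap.range (DD (eX A) (eY A) (RR A) (n + 1)) =
      LinearMap.ker (DD (eX A) (eY A) (RR A) n) := by
  sorry

/-- P4c (file ResL.lean) -/
theorem IA_res (A : Type) [CommRing A] (h2 : (2 : A) = 0) :
    ∃ π : (Fin 2 → RR A) →ₗ[RR A] ↥(IA A), Function.Surjective π ∧
      LinearMap.range (DD (eX A) (eY A) (RR A) 1) = LinearMap.ker π := by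
  sorry

/-- P4d (file ResL.lean) -/
theorem hasRes_IA (A : Type) [CommRing A] (h2 : (2 : A) = 0) :
    HasRes (RR A) (RR A ⧸ IA A) (fun n => n + 1) := by
  sorry

/-- P5 (file Cone.lean) -/
theorem HasRes.cone {R : Type} [CommRing R] {I : Ideal R} {h : ℕ → ℕ} (H : HasRes R (R ⧸ I) h)
    (x : R) (hx : ∀ a, x * a ∈ I → a ∈ I) :
    HasRes R (R ⧸ (I ⊔ Ideal.span {x})) (fun n => h n + (if n = 0 then 0 else h (n - 1))) := by
  sorry

/-- P6 (file Kos.lean) -/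
theorem hasRes_k (A : Type) [CommRing A] [IsLocalRing A] [IsLocalRing (RR A)]
    (v : Fin 6 → A) (hm : maximalIdeal A = Ideal.span (Set.range v))
    (hreg : ∀ (j : Fin 6) (a : A), v j * a ∈ Ideal.span (v '' {l | l < j}) →
      a ∈ Ideal.span (v '' {l | l < j}))
    (hL : HasRes (RR A) (RR A ⧸ IA A) (fun n => n + 1))
    (hcone : ∀ (I : Ideal (RR A)) (h : ℕ → ℕ), HasRes (RR A) (RR A ⧸ I) h → ∀ x : RR A,
      (∀ a, x * a ∈ I → a ∈ I) →
      HasRes (RR A) (RR A ⧸ (I ⊔ Ideal.span {x})) (fun n => h n + (if n = 0 then 0 else h (n - 1)))) :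
    ∃ h : ℕ → ℕ, HasRes (RR A) (RR A ⧸ maximalIdeal (RR A)) h ∧ ∀ n, h n ≤ 64 * (n + 1) := by
  sorry

/-- P7 (file Alg.lean) -/
theorem exists_A : ∃ (A : Type) (_ : CommRing A) (_ : IsNoetherianRing A) (_ : IsLocalRing A)
    (v : Fin 6 → A) (φ : A →+* LL), (2 : A) = 0 ∧
    maximalIdeal A = Ideal.span (Set.range v) ∧
    (∀ (j : Fin 6) (a : A), v j * a ∈ Ideal.span (v '' {l | l < j}) →
      a ∈ Ideal.span (v '' {l | l < j})) ∧
    (∀ a : A, a ∈ maximalIdeal A ∨ a - 1 ∈ maximalIdeal A) ∧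
    (∀ i : Fin 3, φ (v (Fin.castAdd 3 i)) = cc (sv i) * T2 ∧
      φ (v (Fin.natAdd 3 i)) = cc (sv i) * T1) := by
  sorry

/-- P8 (file Cyc.lean), part (i) -/
theorem cyc_order (A : Type) [CommRing A] (h2 : (2 : A) = 0) (φ : A →+* LL) (n : ℕ)
    (v : Fin (n + 2) → RR A) (hv : ∀ i, v i ∈ JJ φ)
    (hcyc : ∀ i : Fin (n + 1), eX A * v i.succ + eY A * v i.castSucc = 0) (j : ℕ)
    (hj : j < n + 2) : PowerSeries.coeff j (ev (φ (v 0).snd.fst)) = 0 := by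
  sorry

/-- P8 (file Cyc.lean), part (ii) -/
theorem cyc_exists (A : Type) [CommRing A] (h2 : (2 : A) = 0) (φ : A →+* LL) (w : Fin 6 → A)
    (hφ : ∀ i : Fin 3, φ (w (Fin.castAdd 3 i)) = cc (sv i) * T2 ∧
      φ (w (Fin.natAdd 3 i)) = cc (sv i) * T1) (n a b : ℕ) (hab : a + b ≤ n + 2) :
    ∃ v : Fin (n + 2) → RR A, (∀ i, v i ∈ JJ φ) ∧
      (∀ i : Fin (n + 1), eX A * v i.succ + eY A * v i.castSucc = 0) ∧
      ev (φ (v 0).snd.fst) = PowerSeries.C (sv 1 ^ a * sv 2 ^ b) * PowerSeries.X ^ (n + 2) := by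
  sorry

/-- P9 (file H3.lean) -/
theorem exists_fin_reps (A : Type) [CommRing A] [IsLocalRing A] (v : Fin 6 → A)
    (hm : maximalIdeal A = Ideal.span (Set.range v))
    (hres : ∀ a : A, a ∈ maximalIdeal A ∨ a - 1 ∈ maximalIdeal A) :
    ∃ (L : ℕ) (b : Fin L → A), ∀ a : A, ∃ S : Finset (Fin L),
      a - ∑ i ∈ S, b i ∈ maximalIdeal A ^ 3 := by
  sorry

/-- P10 (file Cnt.lean) -/
theorem count (A : Type) [CommRing A] [IsLocalRing A] (ρ : A →+* PowerSeries FF)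
    (hρ : ∀ a ∈ maximalIdeal A, PowerSeries.coeff 0 (ρ a) = 0)
    (L : ℕ) (b : Fin L → A) (hb : ∀ a : A, ∃ S : Finset (Fin L),
      a - ∑ i ∈ S, b i ∈ maximalIdeal A ^ 3)
    (N u : ℕ) (g : Fin u → PowerSeries FF)
    (hg : ∀ i, ∀ j < N, PowerSeries.coeff j (g i) = 0)
    (hU : ∀ c d : ℕ, c + d ≤ N → ∃ r : Fin u → A, ∑ i, ρ (r i) * g i =
      PowerSeries.C (sv 1 ^ c * sv 2 ^ d) * PowerSeries.X ^ (N + 2)) :
    (N / 2 + 1) ^ 2 ≤ L * u := by
  sorry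

/-- P11 (file Burch.lean) -/
theorem isBurch_mul {R : Type} [CommRing R] [IsLocalRing R] [IsNoetherianRing R] (c : Ideal R)
    (hc : maximalIdeal R * c ≠ ⊥) : IsBurch (maximalIdeal R * c) := by
  sorry

/-- P12a (file RRing.lean) -/
theorem isLocalRing_RR (A : Type) [CommRing A] [IsLocalRing A] : IsLocalRing (RR A) := by
  sorry

/-- P12b (file RRing.lean) -/
theorem isNoetherianRing_RR (A : Type) [CommRing A] [IsNoetherianRing A] :
    IsNoetherianRing (RR A) := by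
  sorry

/-- P12c (file RRing.lean) -/
theorem mem_max_RR (A : Type) [CommRing A] [IsLocalRing A] [IsLocalRing (RR A)] (r : RR A) :
    r ∈ maximalIdeal (RR A) ↔ r.fst.fst ∈ maximalIdeal A := by
  sorry

/-- P12d (file RRing.lean) -/
theorem mem_IA (A : Type) [CommRing A] (r : RR A) : r ∈ IA A ↔ r.fst.fst = 0 := by
  sorry

/-- P13 (file Growth.lean) -/
theorem cplx_upper (f : ℕ → ℕ∞) (c : ℕ) (hf : ∀ n : ℕ, f (n + 1) ≤ (c * (n + 2) : ℕ)) :
    cplx f ≤ 2 := by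
  sorry

/-- P13 (file Growth.lean) -/
theorem cplx_lower (f : ℕ → ℕ∞) (L : ℕ)
    (hf : ∀ n : ℕ, ∀ u : ℕ, f (n + 1) = (u : ℕ∞) → ((n + 2) / 2 + 1) ^ 2 ≤ L * u) :
    3 ≤ cplx f := by
  sorry

/-- P14 (file Low.lean): the lower bound, from P1, P3, P4, P8, P9, P10 -/
theorem lower (A : Type) [CommRing A] [IsNoetherianRing A] [IsLocalRing A]
    [IsLocalRing (RR A)] (v : Fin 6 → A) (φ : A →+* LL) (h2 : (2 : A) = 0)
    (hm : maximalIdeal A = Ideal.span (Set.range v))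
    (hφ : ∀ i : Fin 3, φ (v (Fin.castAdd 3 i)) = cc (sv i) * T2 ∧
      φ (v (Fin.natAdd 3 i)) = cc (sv i) * T1)
    (L : ℕ) (b : Fin L → A) (hb : ∀ a : A, ∃ S : Finset (Fin L),
      a - ∑ i ∈ S, b i ∈ maximalIdeal A ^ 3)
    (n : ℕ) (s : Finset (TorM (RR A) (n + 1) ↥(maximalIdeal (RR A) * JJ φ)
      ↥(maximalIdeal (RR A) * IA A))) (hs : Submodule.span (RR A) (↑s : Set (TorM (RR A) (n + 1) ↥(maximalIdeal (RR A) * JJ φ)
      ↥(maximalIdeal (RR A) * IA A))) = ⊤) :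
    ((n + 3) / 2 + 1) ^ 2 ≤ L * s.card := by
  sorry

/-- FINAL -/
theorem final : ∃ (R : Type) (_ : CommRing R) (_ : IsNoetherianRing R) (_ : IsLocalRing R)
    (I J : Ideal R), IsBurch I ∧ IsBurch J ∧
      tcx R (R ⧸ maximalIdeal R) (R ⧸ maximalIdeal R) ≤ 2 ∧ 3 ≤ tcx R I J := by
  sorry

end Pool.Agent.R698.BU
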